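import Pool.Agent.Helper64.LE.U

/-!
# MP_08fe4e_an, module E3A: lower bound of the Green function between the arms
-/

open MeasureTheory Set Filter Topology InnerProductSpace

noncomputable section

namespace LEP.U

theorem green_continuousAt {D : Set ℂ} {g : ℂ → ℂ → ℝ} (hD : IsOpen D) (hg : IsGreen D g) {y : ℂ}
    (hy : y ∈ D) {x : ℂ} (hx : x ∈ D) (hxy : x ≠ y) : ContinuousAt (fun x => g x y) x := by
  have h1 := green_harmonic hD hg hy (V := {x}) (by simpa using hx) (by simpa using hxy.symm)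
  exact (h1 x rfl).1.continuousAt

/-- comparison outside of a ball -/
theorem comp2 (hMPB : ST_MPB) {D A : Set ℂ} {g gA : ℂ → ℂ → ℝ} (hD : IsOpen D) (hA : IsOpen A)
    (hbdd : Bornology.IsBounded A) (hAD : A ⊆ D) (hg : IsGreen D g) (hgA : IsGreen A gA) {b w : ℂ}
    {r κ C : ℝ} (hr : 0 < r) (hκ : 0 ≤ κ) (hC : 0 < C) (hball : Metric.closedBall b r ⊆ A)
    (hw : w ∈ D) (hwA : w ∉ A) (hlow : ∀ z ∈ Metric.closedBall b r, κ ≤ g z w)
    (hup : ∀ z ∈ A, r < ‖z - b‖ → gA z b ≤ C) {z : ℂ} (hz : z ∈ A)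
    (hzb : z ∉ Metric.closedBall b r) : κ / C * gA z b ≤ g z w := by
  have hbA : b ∈ A := hball (Metric.mem_closedBall_self hr.le)
  set V : Set ℂ := A \ Metric.closedBall b r with hV
  have hVo : IsOpen V := hA.sdiff Metric.isClosed_closedBall
  have hbV : b ∉ V := fun h => h.2 (Metric.mem_closedBall_self hr.le)
  have h1 : HarmonicOnNhd (fun x => gA x b) V := green_harmonic hA hgA hbA diff_subset hbV
  have h2 : HarmonicOnNhd (fun x => g x w) V :=
    green_harmonic hD hg hw (diff_subset.trans hAD) fun h => hwA h.1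
  have hf : HarmonicOnNhd (((κ / C) • fun x => gA x b) - fun x => g x w) V := by
    intro x hx
    exact ((h1 x hx).const_smul).sub (h2 x hx)
  have hκC : 0 ≤ κ / C := div_nonneg hκ hC.le
  have key := hMPB V _ hVo (hbdd.subset diff_subset) hf ?_ z ⟨hz, hzb⟩
  · have h3 : κ / C * gA z b - g z w ≤ 0 := key
    linarith
  · intro ξ hξ ε hε
    rw [hVo.frontier_eq] at hξ
    by_cases hξb : ξ ∈ Metric.closedBall b r
    · have hξA := hball hξb
      have hξw : ξ ≠ w := fun h => hwA (h ▸ hξA)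
      have hc := green_continuousAt hD hg hw (hAD hξA) hξw
      have h3 : ∀ᶠ x in 𝓝[V] ξ, κ - ε < g x w :=
        nhdsWithin_le_nhds (hc.eventually (eventually_gt_nhds (by linarith [hlow ξ hξb])))
      filter_upwards [h3, self_mem_nhdsWithin] with x hx1 hx2
      have h4 : r < ‖x - b‖ := by
        have := hx2.2
        rw [Metric.mem_closedBall, dist_eq_norm, not_le] at this
        exact this
      have h5 := hup x hx2.1 h4
      have h6 : κ / C * gA x b ≤ κ := by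
        calc κ / C * gA x b ≤ κ / C * C := mul_le_mul_of_nonneg_left h5 hκC
          _ = κ := by field_simp
      show κ / C * gA x b - g x w < ε
      linarith
    · have hξA : ξ ∉ A := fun h => hξ.2 ⟨h, hξb⟩
      have hε' : 0 < ε / (κ / C + 1) := by positivity
      filter_upwards [nhdsWithin_le_nhds (green_tend hgA hbA hξA hε')] with x hx
      have h4 : κ / C * gA x b ≤ κ / C * (ε / (κ / C + 1)) := mul_le_mul_of_nonneg_left hx.le hκC
      have h5 : κ / C * (ε / (κ / C + 1)) < ε := by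
        rw [mul_div_assoc', div_lt_iff₀ (by positivity)]
        nlinarith
      have h6 := hg.nonneg x w
      show κ / C * gA x b - g x w < ε
      linarith

/-- the centre of the ball -/
def bc (i : Fin 2) : ℂ := 8 * Complex.exp (mid i * Complex.I)

theorem mid_lt (i : Fin 2) : al i < mid i ∧ mid i < be i := by
  have h1 := mm_pos i
  have h2 := Real.pi_pos
  have h3 : 0 < Real.pi / (2 * mm i) := by positivity
  have h7 : be i = mid i + Real.pi / (2 * mm i) := by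
    unfold be mid
    field_simp
    ring
  constructor
  · unfold mid
    linarith
  · linarith

theorem norm_bc (i : Fin 2) : ‖bc i‖ = 8 := by
  unfold bc
  rw [norm_mul, Complex.norm_exp_ofReal_mul_I]
  norm_num

theorem bc_mem (i : Fin 2) : bc i ∈ Arm i := by
  have h1 := mid_lt i
  have h2 := al_pos i
  have h3 := be_lt i
  have h4 := Real.pi_pos
  have harg : Complex.arg (bc i) = mid i := by
    unfold bc
    have : (8 : ℂ) * Complex.exp (mid i * Complex.I) =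
        ((8 : ℝ) : ℂ) * Complex.exp (mid i * Complex.I) := by norm_num
    rw [this, Complex.arg_real_mul _ (by norm_num : (0 : ℝ) < 8), Complex.arg_exp_mul_I,
      toIocMod_eq_self]
    constructor
    · linarith
    · linarith
  refine ⟨?_, ?_, ?_⟩
  · rw [← norm_pos_iff, norm_bc]
    norm_num
  · rw [harg]
    exact h1.1
  · rw [harg]
    exact h1.2

theorem R0_mono {Rv Rv' : Fin 2 → ℝ} (h : ∀ i, Rv i ≤ Rv' i) (t : ℝ) : R0 Rv t ≤ R0 Rv' t := by
  unfold R0
  split_ifs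
  · exact h 0
  · exact h 1
  · exact le_rfl

theorem Ddom_mono {R R' : ℝ → ℝ} (h : ∀ t, R t ≤ R' t) : Ddom R ⊆ Ddom R' := by
  rintro z ⟨h1, h2⟩
  exact ⟨lt_of_lt_of_le h1 (h _), h2⟩

/-- **E3A** -/
theorem st_E3A (hMPB : ST_MPB) (hPOS : ST_POS) (hGF2 : ST_GF2) (hGEO : ST_GEO) (hMONO : ST_MONO)
    (hSG : ST_SECG) (hS : ST_SEC0) (hGQ : ST_GQ1) : ST_E3A := by
  classical
  -- the radius
  have hrad : ∀ i, ∃ r : ℝ, 0 < r ∧ Metric.closedBall (bc i) r ⊆ ArmR i 16 ∧
      ∀ z ∈ Metric.closedBall (bc i) r, ‖z‖ < 9 := by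
    intro i
    have h1 : bc i ∈ Arm i ∩ {z | ‖z‖ < 9} := ⟨bc_mem i, by
      show ‖bc i‖ < 9
      rw [norm_bc]
      norm_num⟩
    have h2 : IsOpen (Arm i ∩ {z : ℂ | ‖z‖ < 9}) :=
      (isOpen_arm i).inter (isOpen_lt continuous_norm continuous_const)
    obtain ⟨r, hr, hr'⟩ := Metric.nhds_basis_closedBall.mem_iff.mp (h2.mem_nhds h1)
    exact ⟨r, hr, fun z hz => ⟨(hr' hz).1, lt_trans (hr' hz).2 (by norm_num)⟩,
      fun z hz => (hr' hz).2⟩
  choose r hr hball hball9 using hrad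
  -- the constant
  have hC : ∀ (Rv : Fin 2 → ℝ), (∀ i, 16 ≤ Rv i) → ∀ i, ∀ z ∈ ArmR i (Rv i), r i < ‖z - bc i‖ →
      (if z ∈ ArmR i (Rv i) ∧ bc i ∈ ArmR i (Rv i) ∧ z ≠ bc i then GAR i (Rv i) z (bc i) else 0)
        ≤ 3 / r i := by
    intro Rv hRv i z hz hzb
    have hb : bc i ∈ ArmR i (Rv i) := ⟨bc_mem i, by
      rw [norm_bc]
      linarith [hRv i]⟩
    have hA := hSG i (Rv i) (by linarith [hRv i])
    have hAQ : ArmR i (Rv i) ⊆ Qd := fun w hw => (hS.1 i w hw.1).1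
    have hne : z ≠ bc i := by
      rintro rfl
      rw [sub_self, norm_zero] at hzb
      linarith [hr i]
    have h1 := hGQ.2.2.2.2 _ _ (isOpen_armR i (Rv i)) hAQ hA z hz (bc i) hb
    have h2 := hGQ.2.2.1 (bc i) (hAQ hb) z (hAQ hz) hne.symm
    have h3 := (hGQ.1 z (hAQ hz) (bc i) (hAQ hb)).2
    have h4 := (hS.1 i (bc i) (bc_mem i)).2.2
    rw [norm_bc] at h4
    rw [norm_sub_rev] at h2
    have hpi := Real.pi_gt_three
    have h5 : psi (bc i) / ‖z - bc i‖ ≤ 4 / r i := by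
      have h6 : 0 < r i := hr i
      rw [div_le_div_iff₀ (by linarith) h6]
      nlinarith
    have h6 : 2 / Real.pi * (psi (bc i) / ‖z - bc i‖) ≤ 2 / Real.pi * (4 / r i) :=
      mul_le_mul_of_nonneg_left h5 (by positivity)
    have h7 : 2 / Real.pi * (4 / r i) ≤ 3 / r i := by
      rw [div_mul_div_comm, div_le_div_iff₀ (by have := hr i; positivity) (hr i)]
      have h8 := hr i
      nlinarith
    linarith
  -- the minimum
  set D' : Set ℂ := Ddom (R0 fun _ => 16) with hD'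
  have h16 : ∀ i : Fin 2, (1 : ℝ) ≤ (fun _ => 16 : Fin 2 → ℝ) i := fun i => by norm_num
  obtain ⟨hprof', -, -, -, -, hsub', -, -⟩ := hGEO.2 (fun _ => 16) h16
  obtain ⟨-, hDo', -⟩ := hGEO.1 _ hprof'
  have hG' := hGF2 _ hprof'
  obtain ⟨m, hm, hmle⟩ : ∃ m : ℝ, 0 < m ∧ ∀ y ∈ Metric.closedBall (bc 0) (r 0),
      ∀ z ∈ Metric.closedBall (bc 1) (r 1), m ≤ gD D' y z := by
    have hcomp : IsCompact (Metric.closedBall (bc 0) (r 0) ×ˢ Metric.closedBall (bc 1) (r 1)) :=
      (isCompact_closedBall _ _).prod (isCompact_closedBall _ _)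
    have hne : (Metric.closedBall (bc 0) (r 0) ×ˢ Metric.closedBall (bc 1) (r 1)).Nonempty :=
      ⟨(bc 0, bc 1), Metric.mem_closedBall_self (hr 0).le, Metric.mem_closedBall_self (hr 1).le⟩
    have hdist : ∀ y ∈ Metric.closedBall (bc 0) (r 0), ∀ z ∈ Metric.closedBall (bc 1) (r 1),
        y ≠ z := by
      rintro y hy z hz rfl
      exact absurd (arm_disj (hball 0 hy).1 (hball 1 hz).1) (by decide)
    obtain ⟨h, hh1, hh2, hh3⟩ := hG'.reg
    have hcont : ContinuousOn (fun q : ℂ × ℂ => gD D' q.1 q.2)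
        (Metric.closedBall (bc 0) (r 0) ×ˢ Metric.closedBall (bc 1) (r 1)) := by
      have h1 : ContinuousOn (fun q : ℂ × ℂ => h q.1 q.2 -
          (1 / (2 * Real.pi)) * Real.log ‖q.1 - q.2‖)
          (Metric.closedBall (bc 0) (r 0) ×ˢ Metric.closedBall (bc 1) (r 1)) := by
        refine ContinuousOn.sub (hh1.mono ?_) (ContinuousOn.mul continuousOn_const ?_)
        · rintro q ⟨hq1, hq2⟩
          exact ⟨hsub' 0 (hball 0 hq1), hsub' 1 (hball 1 hq2)⟩
        · refine ContinuousOn.log (by fun_prop) fun q hq => ?_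
          rw [norm_ne_zero_iff]
          exact sub_ne_zero.mpr (hdist _ hq.1 _ hq.2)
      refine h1.congr fun q hq => ?_
      exact hh3 q.1 (hsub' 0 (hball 0 hq.1)) q.2 (hsub' 1 (hball 1 hq.2)) (hdist _ hq.1 _ hq.2)
    obtain ⟨q, hq, hmin⟩ := hcomp.exists_isMinOn hne hcont
    refine ⟨gD D' q.1 q.2, hPOS _ hprof' _ (hsub' 0 (hball 0 hq.1)) _ (hsub' 1 (hball 1 hq.2))
      (hdist _ hq.1 _ hq.2), fun y hy z hz => ?_⟩
    exact hmin (show (y, z) ∈ _ from ⟨hy, hz⟩)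
  refine ⟨bc 0, bc_mem 0, bc 1, bc_mem 1, norm_bc 0, norm_bc 1,
    m / (3 / r 1) / (3 / r 0), ?_, ?_⟩
  · have h0 := hr 0
    have h1 := hr 1
    positivity
  intro Rv hRv y hy z hz hy16 hz16
  have hRv1 : ∀ i, 1 ≤ Rv i := fun i => by linarith [hRv i]
  obtain ⟨hprof, -, -, -, -, hsub, -, -⟩ := hGEO.2 Rv hRv1
  obtain ⟨-, hDo, -⟩ := hGEO.1 _ hprof
  have hG := hGF2 _ hprof
  have hballR : ∀ i, Metric.closedBall (bc i) (r i) ⊆ ArmR i (Rv i) := fun i w hw =>
    ⟨(hball i hw).1, (hball9 i w hw).trans (by linarith [hRv i])⟩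
  have hbdd : ∀ i, Bornology.IsBounded (ArmR i (Rv i)) := fun i => by
    refine (Metric.isBounded_ball (x := (0 : ℂ)) (r := Rv i)).subset fun w hw => ?_
    rw [mem_ball_zero_iff]
    exact hw.2
  have hbR : ∀ i, bc i ∈ ArmR i (Rv i) := fun i => hballR i (Metric.mem_closedBall_self (hr i).le)
  have hout : ∀ i, ∀ w : ℂ, 16 ≤ ‖w‖ → w ∉ Metric.closedBall (bc i) (r i) := fun i w hw h => by
    have := hball9 i w h
    linarith
  have hneb : ∀ i, ∀ w : ℂ, 16 ≤ ‖w‖ → w ≠ bc i := by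
    rintro i w hw rfl
    rw [norm_bc] at hw
    norm_num at hw
  have h01 : ∀ w, w ∈ Arm 0 → w ∉ Arm 1 := fun w h h' => absurd (arm_disj h h') (by decide)
  -- first comparison
  have hfirst : ∀ u ∈ Metric.closedBall (bc 0) (r 0),
      m / (3 / r 1) * GAR 1 (Rv 1) z (bc 1) ≤ gD (Ddom (R0 Rv)) u z := by
    intro u hu
    have h1 := comp2 hMPB hDo (isOpen_armR 1 (Rv 1)) (hbdd 1) (hsub 1) hG
      (hSG 1 (Rv 1) (by linarith [hRv 1])) (b := bc 1) (w := u) (r := r 1) (κ := m)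
      (C := 3 / r 1) (hr 1) hm.le (by have := hr 1; positivity) (hballR 1)
      (hsub 0 (hballR 0 hu)) (fun h => h01 u (hballR 0 hu).1 h.1)
      (fun w hw => by
        have h2 := hmle u hu w hw
        have h3 := hMONO _ _ _ _ hDo' hDo (Ddom_mono (R0_mono hRv)) hG' hG u w
        rw [hG.symm w (hsub 1 (hballR 1 hw)) u (hsub 0 (hballR 0 hu))]
        exact h2.trans h3)
      (fun w hw hwr => hC Rv hRv 1 w hw hwr) hz (hout 1 z hz16)
    rw [if_pos ⟨hz, hbR 1, hneb 1 z hz16⟩, hG.symm z (hsub 1 hz) u (hsub 0 (hballR 0 hu))] at h1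
    exact h1
  -- second comparison
  have hκ : 0 ≤ m / (3 / r 1) * GAR 1 (Rv 1) z (bc 1) := by
    have h1 := (hS.2.2.2.2.2.1 1 (Rv 1) (by linarith [hRv 1]) z hz (bc 1) (hbR 1)
      (hneb 1 z hz16)).1
    have h2 := hr 1
    positivity
  have h2 := comp2 hMPB hDo (isOpen_armR 0 (Rv 0)) (hbdd 0) (hsub 0) hG
    (hSG 0 (Rv 0) (by linarith [hRv 0])) (b := bc 0) (w := z) (r := r 0)
    (κ := m / (3 / r 1) * GAR 1 (Rv 1) z (bc 1))
    (C := 3 / r 0) (hr 0) hκ (by have := hr 0; positivity) (hballR 0)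
    (hsub 1 hz) (fun h => h01 z h.1 hz.1) hfirst
    (fun w hw hwr => hC Rv hRv 0 w hw hwr) hy (hout 0 y hy16)
  rw [if_pos ⟨hy, hbR 0, hneb 0 y hy16⟩] at h2
  calc _ = m / (3 / r 1) * GAR 1 (Rv 1) z (bc 1) / (3 / r 0) * GAR 0 (Rv 0) y (bc 0) := by ring
    _ ≤ _ := h2

end LEP.U
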