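import Pool.Agent.Helper64.LE.U

/-!
# MP_08fe4e_an, module W3: the two point profiles are small outside the windows
-/

open MeasureTheory Set Filter Topology InnerProductSpace

noncomputable section

namespace LEP.W3

open LEP.U

/-! ### algebra -/

theorem alg {A0 A1 A B : ℝ} (hA : 0 < A) (hA0 : A ≤ A0) (hA1 : A ≤ A1) (hB0 : A0 ≤ B)
    (hB1 : A1 ≤ B) {M1 M2 M η : ℝ} (hη : 0 ≤ η) (hη' : η ≤ A ^ 2 / (100 * B)) (hM1 : 0 ≤ M1)
    (hM2 : 0 ≤ M2) (hM : 0 ≤ M) (hMη : M ≤ η) (hM1' : M1 ≤ A0 + η) (hM2' : M2 ≤ A1 + η)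
    (hdet : 0 < M1 * M2 - M ^ 2) (hc : cE M1 M2 M ≤ (1 / A0 + 1 / A1) / 2 + 1 / (200 * B)) :
    (M2 + M) / (M1 * M2 - M ^ 2) ≤ 11 / 10 / A0 ∧ (M1 + M) / (M1 * M2 - M ^ 2) ≤ 11 / 10 / A1 := by
  have hB : 0 < B := by linarith
  have hA0p : 0 < A0 := by linarith
  have hA1p : 0 < A1 := by linarith
  have hMM : 0 < M1 * M2 := by nlinarith
  have hM1p : 0 < M1 := by
    rcases hM1.eq_or_lt with h | h
    · rw [← h, zero_mul] at hMM
      exact absurd hMM (lt_irrefl _)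
    · exact h
  have hM2p : 0 < M2 := by
    rcases hM2.eq_or_lt with h | h
    · rw [← h, mul_zero] at hMM
      exact absurd hMM (lt_irrefl _)
    · exact h
  have hηA : η ≤ A / 100 := by
    refine hη'.trans ?_
    rw [div_le_div_iff₀ (by positivity) (by norm_num)]
    nlinarith
  -- the lower bound of the energy
  have h1 : (1 / M1 + 1 / M2) / 2 ≤ cE M1 M2 M := by
    unfold cE
    rw [div_add_div _ _ hM1p.ne' hM2p.ne', div_div, div_le_div_iff₀ (by positivity) (by positivity)]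
    have h2 : 0 ≤ M * (M1 * M2) := by positivity
    nlinarith [mul_nonneg hM hM, mul_nonneg (mul_nonneg hM hM) hM1, mul_nonneg (mul_nonneg hM hM) hM2]
  have h2 : (1 / M1 + 1 / M2) / 2 ≤ (1 / A0 + 1 / A1) / 2 + 1 / (200 * B) := h1.trans hc
  have hlow : ∀ P R P' R' : ℝ, 0 < P → 0 < R → 0 < P' → 0 < R' → A ≤ P' → A ≤ R' → P' ≤ B →
      R' ≤ B → R ≤ R' + η → (1 / P + 1 / R) / 2 ≤ (1 / P' + 1 / R') / 2 + 1 / (200 * B) →
      98 / 100 * P' ≤ P := by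
    intro P R P' R' hP hR hP' hR' hAP hAR hPB hRB hRη hle
    have h3 : 1 / R' - 1 / R ≤ 1 / (100 * P') := by
      have h4 : 1 / (R' + η) ≤ 1 / R := one_div_le_one_div_of_le hR hRη
      have h5 : 1 / R' - 1 / (R' + η) ≤ 1 / (100 * P') := by
        rw [div_sub_div _ _ hR'.ne' (by positivity), div_le_div_iff₀ (by positivity) (by positivity)]
        have h6 : η * (100 * P') ≤ R' ^ 2 := by
          have h7 : η * (100 * B) ≤ A ^ 2 := by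
            rw [le_div_iff₀ (by positivity)] at hη'
            exact hη'
          have h8 : η * (100 * P') ≤ η * (100 * B) := by
            apply mul_le_mul_of_nonneg_left _ hη
            linarith
          have h9 : A ^ 2 ≤ R' ^ 2 := by
            apply pow_le_pow_left₀ hA.le hAR
          linarith
        nlinarith
      linarith
    have h4 : 1 / (100 * B) ≤ 1 / (100 * P') :=
      one_div_le_one_div_of_le (by positivity) (by linarith)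
    have h5 : 1 / (200 * B) = 1 / (100 * B) / 2 := by
      field_simp
      norm_num
    have h6 : 1 / P ≤ 1 / P' + 1 / (100 * P') + 1 / (100 * P') := by
      rw [h5] at hle
      linarith
    have h7 : 1 / P' + 1 / (100 * P') + 1 / (100 * P') = 102 / 100 / P' := by
      field_simp
      norm_num
    rw [h7, div_le_div_iff₀ hP hP'] at h6
    linarith
  have h3 : 98 / 100 * A0 ≤ M1 :=
    hlow M1 M2 A0 A1 hM1p hM2p hA0p hA1p hA0 hA1 hB0 hB1 hM2' h2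
  have h4 : 98 / 100 * A1 ≤ M2 :=
    hlow M2 M1 A1 A0 hM2p hM1p hA1p hA0p hA1 hA0 hB1 hB0 hM1' (by linarith)
  have hM100 : M ≤ A / 100 := hMη.trans hηA
  have hAA : A * A ≤ A0 * A1 := mul_le_mul hA0 hA1 hA.le hA0p.le
  have hMM2 : M ^ 2 ≤ A0 * A1 / 10000 := by
    have : M ^ 2 ≤ (A / 100) ^ 2 := pow_le_pow_left₀ hM hM100 2
    nlinarith
  have key : ∀ P R P' R' : ℝ, 0 < P → 0 < R → 0 < P' → 0 < R' → A ≤ R' → P' * R' = A0 * A1 →
      P * R = M1 * M2 → 98 / 100 * P' ≤ P → 98 / 100 * R' ≤ R →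
      (R + M) / (M1 * M2 - M ^ 2) ≤ 11 / 10 / P' := by
    intro P R P' R' hP hR hP' hR' hAR hPR hPR' hPlow hRlow
    rw [div_le_div_iff₀ hdet hP', ← hPR']
    rw [← hPR] at hMM2
    have h5 : M * P' ≤ P' * R' / 100 := by
      have : M ≤ R' / 100 := by linarith
      nlinarith
    have h6 : 98 / 100 * R' * (11 / 10 * P - P') ≤ R * (11 / 10 * P - P') := by
      apply mul_le_mul_of_nonneg_right hRlow
      linarith
    have h7 : 98 / 100 * R' * (78 / 1000 * P') ≤ 98 / 100 * R' * (11 / 10 * P - P') := by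
      apply mul_le_mul_of_nonneg_left _ (by positivity)
      linarith
    have h8 : 0 < P' * R' := by positivity
    nlinarith
  refine ⟨key M1 M2 A0 A1 hM1p hM2p hA0p hA1p hA1 rfl rfl h3 h4, ?_⟩
  exact key M2 M1 A1 A0 hM2p hM1p hA1p hA0p hA0 (mul_comm _ _) (mul_comm _ _) h4 h3

/-! ### small powers -/

theorem pow_small {L u e : ℝ} (hL : 1 ≤ L) (hu : L ^ (9 / 10 : ℝ) ≤ u) (he : e ≤ -1) :
    u ^ e ≤ L ^ (-(1 / 20) : ℝ) := by
  have hL0 : 0 < L := by linarith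
  have h1 : 0 < L ^ (9 / 10 : ℝ) := Real.rpow_pos_of_pos hL0 _
  calc u ^ e ≤ (L ^ (9 / 10 : ℝ)) ^ e := Real.rpow_le_rpow_of_nonpos h1 hu (by linarith)
    _ = L ^ (9 / 10 * e) := (Real.rpow_mul hL0.le _ _).symm
    _ ≤ L ^ (-(1 / 20) : ℝ) := Real.rpow_le_rpow_of_exponent_le hL (by linarith)

theorem mp_ge (i : Fin 2) : 2 ≤ mp i := by
  fin_cases i <;> simp [mp, mm] <;> norm_num

theorem pow_le_one {u e : ℝ} (hu : 1 ≤ u) (he : e ≤ 0) : u ^ e ≤ 1 :=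
  Real.rpow_le_one_of_one_le_of_nonpos hu he

/-! ### normalised kernels -/

theorem Ddom_mono' {R R' : ℝ → ℝ} (h : ∀ t, R t ≤ R' t) {z : ℂ} (hz : z ∈ Ddom R) :
    z ∈ Ddom R' :=
  ⟨lt_of_lt_of_le hz.1 (h _), hz.2⟩

section ctx

variable {D : Set ℂ}

theorem psi_pos {x : ℂ} (hx : x ∈ Qd) : 0 < psi x := by
  unfold psi
  have h1 := hx.1
  have h2 := hx.2
  have h3 : 0 < ‖x‖ := by
    rw [norm_pos_iff]
    rintro rfl
    simp at h1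
  positivity

theorem gt_off (hg : IsGreen D (gD D)) {x : ℂ} (hx : x ∉ D) (y : ℂ) : Gt D x y = 0 := by
  unfold Gt Gam
  have : ∀ z, gD D x z * gD D z y = 0 := fun z => by rw [hg.off x z (Or.inl hx), zero_mul]
  simp only [this, integral_zero, zero_div]

theorem gt_off' (hg : IsGreen D (gD D)) (x : ℂ) {y : ℂ} (hy : y ∉ D) : Gt D x y = 0 := by
  unfold Gt Gam
  have : ∀ z, gD D x z * gD D z y = 0 := fun z => by rw [hg.off z y (Or.inr hy), mul_zero]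
  simp only [this, integral_zero, zero_div]

end ctx

/-- the facts which are used, for a given domain and scale -/
structure Facts (D : Set ℂ) (L K : ℝ) : Prop where
  off : ∀ x, x ∉ D → ∀ y, Gt D x y = 0
  off' : ∀ x y, y ∉ D → Gt D x y = 0
  nonneg : ∀ x ∈ D, ∀ y ∈ D, 0 ≤ Gt D x y
  symm : ∀ x ∈ D, ∀ y ∈ D, Gt D x y = Gt D y x
  cs : ∀ x ∈ D, ∀ y ∈ D, Gt D x y ^ 2 ≤ Gt D x x * Gt D y y
  diag : ∀ i, ∀ x ∈ D, x ∈ Arm i → L ^ (9 / 10 : ℝ) ≤ ‖x‖ →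
    Gt D x x ≤ gam i (Complex.arg x) + K * L ^ (-(1 / 20) : ℝ)
  cross : ∀ x ∈ D, ∀ y ∈ D, x ∈ Arm 0 → y ∈ Arm 1 → 4 ≤ ‖x‖ → 4 ≤ ‖y‖ →
    (L ^ (9 / 10 : ℝ) ≤ ‖x‖ ∨ L ^ (9 / 10 : ℝ) ≤ ‖y‖) → Gt D x y ≤ K * L ^ (-(1 / 20) : ℝ)
  same : ∀ i, ∀ x ∈ D, ∀ y ∈ D, x ∈ Arm i → y ∈ Arm i → 4 ≤ ‖y‖ → L ^ (9 / 10 : ℝ) ≤ ‖x‖ →
    ‖y‖ ≤ L ^ (-(1 / 20) : ℝ) * ‖x‖ → Gt D x y ≤ K * L ^ (-(1 / 20) : ℝ)
  core : ∀ i, ∀ y ∈ D, ∀ x ∈ D, ‖y‖ ≤ 4 → x ∈ Arm i → L ^ (9 / 10 : ℝ) ≤ ‖x‖ →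
    Gt D y x ≤ K * L ^ (-(1 / 20) : ℝ) * ‖y‖ ^ ((1 : ℝ) / 2)
  cov : ∀ y ∈ D, 1 ≤ ‖y‖ → ∃ i, y ∈ Arm i

theorem facts (hT2 : ST_T2) (hGF2 : ST_GF2) (hGEO : ST_GEO) (hS : ST_SEC0) (hE1 : ST_E1)
    (hE4 : ST_E4) (hE5 : ST_E5) (hE6 : ST_E6) : ∃ K : ℝ, 0 < K ∧ ∀ L : ℝ, 1 ≤ L →
    16 ≤ L ^ (9 / 10 : ℝ) → ∀ Rv R, Sub Rv R → Facts (Ddom R) L K := by
  obtain ⟨C1, hC1, h1⟩ := hE1.1
  obtain ⟨C4, hC4, h4⟩ := hE4
  obtain ⟨C5, hC5, h5⟩ := hE5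
  obtain ⟨C6, hC6, h6⟩ := hE6
  refine ⟨C1 + 800 * C4 + 20 * C5 + 1200 * C6, by positivity, fun L hL hL16 Rv R hsub => ?_⟩
  have hL0 : 0 < L := by linarith
  have hprof := hsub.2.1
  have hRv1 : ∀ i, 1 ≤ Rv i := fun i => by linarith [hsub.1 i]
  obtain ⟨-, -, -, -, -, -, hcov, -⟩ := hGEO.2 Rv hRv1
  have hG := hGF2 R hprof
  have hDQ : Ddom R ⊆ Qd := fun z hz => hz.2
  obtain ⟨-, -, -, -, hT, -, -⟩ := hT2 R hprof
  set t : ℝ := L ^ (-(1 / 20) : ℝ) with ht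
  have ht0 : 0 < t := Real.rpow_pos_of_pos hL0 _
  have ht1 : t ≤ 1 := Real.rpow_le_one_of_one_le_of_nonpos hL (by norm_num)
  have hpsi : ∀ x ∈ Ddom R, 0 < psi x := fun x hx => psi_pos (hDQ hx)
  have hpow : ∀ u e : ℝ, L ^ (9 / 10 : ℝ) ≤ u → e ≤ -1 → u ^ e ≤ t :=
    fun u e hu he => pow_small hL hu he
  -- dividing by psi
  have hdiv : ∀ i j, ∀ x ∈ Ddom R, ∀ y ∈ Ddom R, x ∈ Arm i → y ∈ Arm j → 0 < ‖x‖ → 0 < ‖y‖ →
      ∀ B, 0 ≤ B → Gam (Ddom R) x y ≤ B → Gt (Ddom R) x y ≤ 400 * (B / (‖x‖ * ‖y‖)) := by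
    intro i j x hx y hy hxi hyj hx0 hy0 B hB hle
    have h7 := (hS.1 i x hxi).2.1
    have h8 := (hS.1 j y hyj).2.1
    have h9 : ‖x‖ * ‖y‖ / 400 ≤ psi x * psi y := by
      calc ‖x‖ * ‖y‖ / 400 = (‖x‖ / 20) * (‖y‖ / 20) := by ring
        _ ≤ psi x * psi y := mul_le_mul h7 h8 (by positivity) (hpsi x hx).le
    have h10 : 0 < psi x * psi y := mul_pos (hpsi x hx) (hpsi y hy)
    unfold Gt
    calc Gam (Ddom R) x y / (psi x * psi y) ≤ B / (psi x * psi y) :=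
          div_le_div_of_nonneg_right hle h10.le
      _ ≤ B / (‖x‖ * ‖y‖ / 400) := div_le_div_of_nonneg_left hB (by positivity) h9
      _ = 400 * (B / (‖x‖ * ‖y‖)) := by
        field_simp
  have hrp : ∀ u e : ℝ, 0 < u → u ^ e / u = u ^ (e - 1) := by
    intro u e hu
    rw [Real.rpow_sub hu, Real.rpow_one]
  refine ⟨fun x hx y => gt_off hG hx y, fun x y hy => gt_off' hG x hy, ?_, ?_, ?_, ?_, ?_, ?_, ?_,
    ?_⟩
  · intro x hx y hy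
    exact div_nonneg (hT x hx y hy).1 (mul_pos (hpsi x hx) (hpsi y hy)).le
  · intro x hx y hy
    unfold Gt
    rw [(hT x hx y hy).2.1, mul_comm (psi x)]
  · intro x hx y hy
    unfold Gt
    have h7 := (hT x hx y hy).2.2
    have h8 := hpsi x hx
    have h9 := hpsi y hy
    rw [div_pow, div_mul_div_comm]
    have h10 : (psi x * psi y) ^ 2 = psi x * psi x * (psi y * psi y) := by ring
    rw [h10]
    exact div_le_div_of_nonneg_right h7 (by positivity)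
  · intro i x hx hxi hxL
    have hx4 : 4 ≤ ‖x‖ := by linarith
    have h7 := h1 Rv R hsub i x hx hxi hx4
    have h8 := hpow ‖x‖ (-2 * mp i) hxL (by linarith [mp_ge i])
    have h9 : C1 * ‖x‖ ^ (-2 * mp i) ≤ C1 * t := mul_le_mul_of_nonneg_left h8 hC1.le
    have h10 : 0 ≤ (800 * C4 + 20 * C5 + 1200 * C6) * t := by positivity
    nlinarith
  · intro x hx y hy hx0 hy1 hx4 hy4 hor
    have hxp : 0 < ‖x‖ := by linarith
    have hyp : 0 < ‖y‖ := by linarith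
    have h7 := hdiv 0 1 x hx y hy hx0 hy1 hxp hyp _ (by positivity)
      (h4 Rv R hsub x hx y hy hx0 hy1 hx4 hy4)
    have h8 : C4 * (‖x‖ ^ (2 - mp 0) * ‖y‖ ^ (-mp 1) + ‖x‖ ^ (-mp 0) * ‖y‖ ^ (2 - mp 1)) /
        (‖x‖ * ‖y‖) = C4 * (‖x‖ ^ (2 - mp 0 - 1) * ‖y‖ ^ (-mp 1 - 1) +
          ‖x‖ ^ (-mp 0 - 1) * ‖y‖ ^ (2 - mp 1 - 1)) := by
      rw [← hrp _ _ hxp, ← hrp _ _ hyp, ← hrp _ _ hxp, ← hrp _ _ hyp]
      field_simp
    rw [h8] at h7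
    have hm0 : mp 0 = 3 - 1 / 200 := by simp [mp, mm]
    have hm1 : mp 1 = 9 - 1 / 200 := by simp [mp, mm]
    have hx1 : 1 ≤ ‖x‖ := by linarith
    have hy1' : 1 ≤ ‖y‖ := by linarith
    have e1 : ‖x‖ ^ (2 - mp 0 - 1) * ‖y‖ ^ (-mp 1 - 1) ≤ t := by
      rcases hor with h | h
      · have h9 := hpow ‖x‖ (2 - mp 0 - 1) h (by rw [hm0]; norm_num)
        have h10 : ‖y‖ ^ (-mp 1 - 1) ≤ 1 := pow_le_one hy1' (by rw [hm1]; norm_num)
        have h11 : 0 ≤ ‖y‖ ^ (-mp 1 - 1) := by positivity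
        nlinarith [mul_le_mul h9 h10 h11 ht0.le]
      · have h9 := hpow ‖y‖ (-mp 1 - 1) h (by rw [hm1]; norm_num)
        have h10 : ‖x‖ ^ (2 - mp 0 - 1) ≤ 1 := pow_le_one hx1 (by rw [hm0]; norm_num)
        have h11 : 0 ≤ ‖x‖ ^ (2 - mp 0 - 1) := by positivity
        have h12 : 0 ≤ ‖y‖ ^ (-mp 1 - 1) := by positivity
        nlinarith [mul_le_mul h10 h9 h12 zero_le_one]
    have e2 : ‖x‖ ^ (-mp 0 - 1) * ‖y‖ ^ (2 - mp 1 - 1) ≤ t := by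
      rcases hor with h | h
      · have h9 := hpow ‖x‖ (-mp 0 - 1) h (by rw [hm0]; norm_num)
        have h10 : ‖y‖ ^ (2 - mp 1 - 1) ≤ 1 := pow_le_one hy1' (by rw [hm1]; norm_num)
        have h11 : 0 ≤ ‖y‖ ^ (2 - mp 1 - 1) := by positivity
        nlinarith [mul_le_mul h9 h10 h11 ht0.le]
      · have h9 := hpow ‖y‖ (2 - mp 1 - 1) h (by rw [hm1]; norm_num)
        have h10 : ‖x‖ ^ (-mp 0 - 1) ≤ 1 := pow_le_one hx1 (by rw [hm0]; norm_num)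
        have h12 : 0 ≤ ‖y‖ ^ (2 - mp 1 - 1) := by positivity
        nlinarith [mul_le_mul h10 h9 h12 zero_le_one]
    have h9 : 400 * (C4 * (‖x‖ ^ (2 - mp 0 - 1) * ‖y‖ ^ (-mp 1 - 1) +
          ‖x‖ ^ (-mp 0 - 1) * ‖y‖ ^ (2 - mp 1 - 1))) ≤ 400 * (C4 * (t + t)) := by
      have := mul_le_mul_of_nonneg_left (add_le_add e1 e2) hC4.le
      linarith
    have h10 : 0 ≤ (C1 + 20 * C5 + 1200 * C6) * t := by positivity
    nlinarith
  · intro i x hx y hy hxi hyi hy4 hxL hratio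
    have hx4 : 4 ≤ ‖x‖ := by linarith
    have hxp : 0 < ‖x‖ := by linarith
    have hyp : 0 < ‖y‖ := by linarith
    have hyx : ‖y‖ ≤ ‖x‖ := hratio.trans (by nlinarith)
    have h7 := hdiv i i x hx y hy hxi hyi hxp hyp _ (by positivity)
      (h6 Rv R hsub i x hx y hy hxi hyi hy4 hyx)
    have h8 : C6 * (‖x‖ ^ 2 * (‖y‖ / ‖x‖) ^ mm i + ‖x‖ ^ (-mp i) * ‖y‖ ^ (2 - mp i) +
        ‖y‖ ^ (-mp i) * ‖x‖ ^ (2 - mp i)) / (‖x‖ * ‖y‖) =
        C6 * ((‖x‖ / ‖y‖) * (‖y‖ / ‖x‖) ^ mm i + ‖x‖ ^ (-mp i - 1) * ‖y‖ ^ (2 - mp i - 1) +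
          ‖y‖ ^ (-mp i - 1) * ‖x‖ ^ (2 - mp i - 1)) := by
      rw [← hrp _ _ hxp, ← hrp _ _ hyp, ← hrp _ _ hyp, ← hrp _ _ hxp]
      field_simp
    rw [h8] at h7
    have hx1 : 1 ≤ ‖x‖ := by linarith
    have hy1' : 1 ≤ ‖y‖ := by linarith
    have e0 : (‖x‖ / ‖y‖) * (‖y‖ / ‖x‖) ^ mm i ≤ t := by
      have hr0 : 0 < ‖y‖ / ‖x‖ := by positivity
      have hrt : ‖y‖ / ‖x‖ ≤ t := by
        rw [div_le_iff₀ hxp]
        exact hratio
      have hr1 : ‖y‖ / ‖x‖ ≤ 1 := hrt.trans ht1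
      have h9 : (‖y‖ / ‖x‖) ^ mm i ≤ (‖y‖ / ‖x‖) ^ 2 := by
        apply pow_le_pow_of_le_one hr0.le hr1
        fin_cases i <;> simp [mm]
      have h10 : ‖x‖ / ‖y‖ * (‖y‖ / ‖x‖) ^ 2 = ‖y‖ / ‖x‖ := by
        field_simp
      calc _ ≤ ‖x‖ / ‖y‖ * (‖y‖ / ‖x‖) ^ 2 := mul_le_mul_of_nonneg_left h9 (by positivity)
        _ = ‖y‖ / ‖x‖ := h10
        _ ≤ t := hrt
    have hm := mp_ge i
    have e1 : ‖x‖ ^ (-mp i - 1) * ‖y‖ ^ (2 - mp i - 1) ≤ t := by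
      have h9 := hpow ‖x‖ (-mp i - 1) hxL (by linarith)
      have h10 : ‖y‖ ^ (2 - mp i - 1) ≤ 1 := pow_le_one hy1' (by linarith)
      have h11 : 0 ≤ ‖y‖ ^ (2 - mp i - 1) := by positivity
      nlinarith [mul_le_mul h9 h10 h11 ht0.le]
    have e2 : ‖y‖ ^ (-mp i - 1) * ‖x‖ ^ (2 - mp i - 1) ≤ t := by
      have h9 := hpow ‖x‖ (2 - mp i - 1) hxL (by linarith)
      have h10 : ‖y‖ ^ (-mp i - 1) ≤ 1 := pow_le_one hy1' (by linarith)
      have h11 : 0 ≤ ‖x‖ ^ (2 - mp i - 1) := by positivity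
      nlinarith [mul_le_mul h10 h9 h11 zero_le_one]
    have h9 : 400 * (C6 * ((‖x‖ / ‖y‖) * (‖y‖ / ‖x‖) ^ mm i +
        ‖x‖ ^ (-mp i - 1) * ‖y‖ ^ (2 - mp i - 1) +
          ‖y‖ ^ (-mp i - 1) * ‖x‖ ^ (2 - mp i - 1))) ≤ 400 * (C6 * (t + t + t)) := by
      have := mul_le_mul_of_nonneg_left (add_le_add (add_le_add e0 e1) e2) hC6.le
      linarith
    have h10 : 0 ≤ (C1 + 800 * C4 + 20 * C5) * t := by positivity
    nlinarith
  · intro i y hy x hx hy4 hxi hxL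
    have hxp : 0 < ‖x‖ := by linarith
    have h7 := h5 Rv R hsub i y hy x hx hy4 hxi (by linarith)
    have h8 := (hS.1 i x hxi).2.1
    have hpx := hpsi x hx
    have hpy := hpsi y hy
    have h9 : Gt (Ddom R) y x ≤ 20 * C5 * (‖y‖ ^ ((1 : ℝ) / 2) * ‖x‖ ^ (2 - mp i - 1)) := by
      unfold Gt
      rw [← hrp _ _ hxp, div_le_iff₀ (by positivity)]
      refine h7.trans ?_
      have h10 : 0 ≤ C5 * psi y * ‖y‖ ^ ((1 : ℝ) / 2) * ‖x‖ ^ (2 - mp i) := by positivity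
      have h11 : 1 ≤ 20 * psi x / ‖x‖ := by
        rw [le_div_iff₀ hxp]
        linarith
      calc C5 * psi y * ‖y‖ ^ ((1 : ℝ) / 2) * ‖x‖ ^ (2 - mp i)
          ≤ C5 * psi y * ‖y‖ ^ ((1 : ℝ) / 2) * ‖x‖ ^ (2 - mp i) * (20 * psi x / ‖x‖) :=
            le_mul_of_one_le_right h10 h11
        _ = _ := by ring
    have h10 := hpow ‖x‖ (2 - mp i - 1) hxL (by linarith [mp_ge i])
    have h11 : 0 ≤ ‖y‖ ^ ((1 : ℝ) / 2) := by positivity
    have h12 : 20 * C5 * (‖y‖ ^ ((1 : ℝ) / 2) * ‖x‖ ^ (2 - mp i - 1)) ≤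
        20 * C5 * (‖y‖ ^ ((1 : ℝ) / 2) * t) := by
      apply mul_le_mul_of_nonneg_left _ (by positivity)
      exact mul_le_mul_of_nonneg_left h10 h11
    have h13 : 0 ≤ (C1 + 800 * C4 + 1200 * C6) * t * ‖y‖ ^ ((1 : ℝ) / 2) := by positivity
    nlinarith
  · intro y hy hy1
    obtain ⟨i, hi⟩ := hcov y (Ddom_mono' hsub.2.2 hy) hy1
    exact ⟨i, hi.1⟩

/-! ### windows -/

theorem win_arm {a b : Fin 2 → ℝ} (ha : ∀ i, al i < a i) (hb : ∀ i, b i < be i) {η L : ℝ}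
    (hL : 0 < L) {i : Fin 2} {z : ℂ} (h : z ∈ Win a b η L i) : z ∈ Arm i := by
  obtain ⟨⟨h1, h2⟩, h3, -⟩ := h
  refine ⟨?_, (ha i).trans_le h1, lt_of_le_of_lt h2 (hb i)⟩
  rw [← norm_pos_iff]
  exact (Real.rpow_pos_of_pos hL _).trans_le h3

theorem ee_ge (i : Fin 2) : 1 ≤ ee i := by
  fin_cases i <;> simp [ee]

theorem win_norm {a b : Fin 2 → ℝ} {η L : ℝ} (hL : 1 ≤ L) (hη : η ≤ 1 / 10) {i : Fin 2} {z : ℂ}
    (h : z ∈ Win a b η L i) : L ^ (9 / 10 : ℝ) ≤ ‖z‖ := by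
  refine le_trans (Real.rpow_le_rpow_of_exponent_le hL ?_) h.2.1
  linarith [ee_ge i]

theorem same_arm {D : Set ℂ} {L K : ℝ} (F : Facts D L K) (hL : 1 ≤ L)
    (hL16 : 16 ≤ L ^ (9 / 10 : ℝ)) {a b a' b' : Fin 2 → ℝ} (hA : AngData a b a' b') {i : Fin 2}
    (hgs : ∀ t ∈ Ioo (al i) (be i), gam i t ≤ gs i) (hpos : 0 < gs i)
    (hK : K * L ^ (-(1 / 20) : ℝ) ≤ gs i / 100) {x y : ℂ} (hx : x ∈ D) (hy : y ∈ D)
    (hxW : x ∈ Wi a' b' L i) (hyi : y ∈ Arm i) (hy4 : 4 ≤ ‖y‖) (hyW : y ∉ Wo a b L i) {m : ℝ}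
    (hm : 0 ≤ m) (hm' : m ≤ 11 / 10 / gs i) : m * Gt D y x ≤ 9 / 10 := by
  have hL0 : 0 < L := by linarith
  have hxi : x ∈ Arm i := win_arm (fun i => (hA.h1 i).trans (hA.h2 i))
    (fun i => (hA.h4 i).trans (hA.h5 i)) hL0 hxW
  have hxL : L ^ (9 / 10 : ℝ) ≤ ‖x‖ := win_norm hL (by norm_num) hxW
  have hx4 : 4 ≤ ‖x‖ := by linarith
  have hsmall : ∀ v : ℝ, v ≤ K * L ^ (-(1 / 20) : ℝ) → m * v ≤ 9 / 10 := by
    intro v hv
    have h1 : m * v ≤ m * (gs i / 100) := mul_le_mul_of_nonneg_left (hv.trans hK) hm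
    have h2 : m * (gs i / 100) ≤ 11 / 10 / gs i * (gs i / 100) :=
      mul_le_mul_of_nonneg_right hm' (by positivity)
    have h3 : 11 / 10 / gs i * (gs i / 100) = 11 / 1000 := by
      field_simp
      norm_num
    linarith
  have hx1 := hxW.2.1
  have hx2 := hxW.2.2
  by_cases hlow : L ^ (ee i - 1 / 10) ≤ ‖y‖
  · by_cases hhigh : ‖y‖ ≤ L ^ (ee i + 1 / 10)
    · -- the angle is bad
      have harg : Complex.arg y ∉ Icc (a i) (b i) := fun h => hyW ⟨h, hlow, hhigh⟩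
      have harg' : Complex.arg y ∉ Icc (a' i) (b' i) := fun h =>
        harg ⟨(hA.h2 i).le.trans h.1, h.2.trans (hA.h4 i).le⟩
      have h1 := hA.half i (Complex.arg y) ⟨hyi.2.1, hyi.2.2⟩ harg'
      have hyL : L ^ (9 / 10 : ℝ) ≤ ‖y‖ := by
        refine le_trans (Real.rpow_le_rpow_of_exponent_le hL ?_) hlow
        linarith [ee_ge i]
      have h2 := F.diag i y hy hyi hyL
      have h3 := F.diag i x hx hxi hxL
      have h4 := hgs (Complex.arg x) ⟨hxi.2.1, hxi.2.2⟩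
      have h5 := F.cs y hy x hx
      have h6 : Gt D y y ≤ 51 / 100 * gs i := by linarith
      have h7 : Gt D x x ≤ 101 / 100 * gs i := by linarith
      have h8 := F.nonneg y hy y hy
      have h9 := F.nonneg x hx x hx
      have h10 : Gt D y x ^ 2 ≤ (51 / 100 * gs i) * (101 / 100 * gs i) :=
        h5.trans (mul_le_mul h6 h7 h9 (by positivity))
      have h11 : m ^ 2 ≤ (11 / 10 / gs i) ^ 2 := pow_le_pow_left₀ hm hm' 2
      have h12 : (m * Gt D y x) ^ 2 ≤ (9 / 10) ^ 2 := by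
        calc (m * Gt D y x) ^ 2 = m ^ 2 * Gt D y x ^ 2 := mul_pow _ _ _
          _ ≤ (11 / 10 / gs i) ^ 2 * ((51 / 100 * gs i) * (101 / 100 * gs i)) :=
            mul_le_mul h11 h10 (sq_nonneg _) (sq_nonneg _)
          _ = 1.21 * (51 / 100) * (101 / 100) := by
            field_simp
            norm_num
          _ ≤ (9 / 10) ^ 2 := by norm_num
      exact abs_le_of_sq_le_sq' h12 (by norm_num) |>.2
    · push Not at hhigh
      apply hsmall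
      have h1 : ‖x‖ ≤ L ^ (-(1 / 20) : ℝ) * ‖y‖ := by
        calc ‖x‖ ≤ L ^ (ee i + 1 / 20) := hx2
          _ = L ^ (-(1 / 20) : ℝ) * L ^ (ee i + 1 / 10) := by
            rw [← Real.rpow_add hL0]
            congr 1
            ring
          _ ≤ L ^ (-(1 / 20) : ℝ) * ‖y‖ :=
            mul_le_mul_of_nonneg_left hhigh.le (Real.rpow_pos_of_pos hL0 _).le
      have hyL : L ^ (9 / 10 : ℝ) ≤ ‖y‖ := by
        refine le_trans (Real.rpow_le_rpow_of_exponent_le hL ?_) hhigh.le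
        linarith [ee_ge i]
      exact F.same i y hy x hx hyi hxi hx4 hyL h1
  · push Not at hlow
    apply hsmall
    have h1 : ‖y‖ ≤ L ^ (-(1 / 20) : ℝ) * ‖x‖ := by
      calc ‖y‖ ≤ L ^ (ee i - 1 / 10) := hlow.le
        _ = L ^ (-(1 / 20) : ℝ) * L ^ (ee i - 1 / 20) := by
          rw [← Real.rpow_add hL0]
          congr 1
          ring
        _ ≤ L ^ (-(1 / 20) : ℝ) * ‖x‖ :=
          mul_le_mul_of_nonneg_left hx1 (Real.rpow_pos_of_pos hL0 _).le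
    rw [F.symm y hy x hx]
    exact F.same i x hx y hy hxi hyi hy4 hxL h1

theorem core_step {D : Set ℂ} {L K : ℝ} (F : Facts D L K) (hL : 1 ≤ L)
    (hL16 : 16 ≤ L ^ (9 / 10 : ℝ)) {a b a' b' : Fin 2 → ℝ} (hA : AngData a b a' b')
    (hgs : ∀ i, ∀ t ∈ Ioo (al i) (be i), gam i t ≤ gs i) (hpos : ∀ i, 0 < gs i) {A B : ℝ}
    (hA0 : 0 < A) (hA1 : ∀ i, A ≤ gs i) (hB : ∀ i, gs i ≤ B) (hK0 : 0 < K)
    (hK : K * L ^ (-(1 / 20) : ℝ) ≤ A ^ 2 / (100 * B)) {x1 x2 : ℂ}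
    (hx1 : x1 ∈ Wi a' b' L 0) (hx2 : x2 ∈ Wi a' b' L 1)
    (hc : cD D x1 x2 ≤ csum + 1 / (200 * B)) :
    (∀ y ∈ D, 4 ≤ ‖y‖ → y ∉ Wo a b L 0 → y ∉ Wo a b L 1 → |Up D x1 x2 y| ≤ 9 / 10) ∧
    (∀ y ∈ D, ‖y‖ ≤ 4 → |Up D x1 x2 y| ≤ ‖y‖ ^ ((1 : ℝ) / 2) / 4) ∧
    (∀ y ∈ Wo a b L 0, -(1 / 2) ≤ Up D x1 x2 y) ∧
    (∀ y ∈ Wo a b L 1, Up D x1 x2 y ≤ 1 / 2) := by
  have hL0 : 0 < L := by linarith
  have hBpos : 0 < B := (hpos 0).trans_le (hB 0)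
  -- the trivial case
  have htriv : Gt D x1 x1 * Gt D x2 x2 - Gt D x1 x2 ^ 2 = 0 →
      (∀ y ∈ D, 4 ≤ ‖y‖ → y ∉ Wo a b L 0 → y ∉ Wo a b L 1 → |Up D x1 x2 y| ≤ 9 / 10) ∧
      (∀ y ∈ D, ‖y‖ ≤ 4 → |Up D x1 x2 y| ≤ ‖y‖ ^ ((1 : ℝ) / 2) / 4) ∧
      (∀ y ∈ Wo a b L 0, -(1 / 2) ≤ Up D x1 x2 y) ∧
      (∀ y ∈ Wo a b L 1, Up D x1 x2 y ≤ 1 / 2) := by
    intro h
    have hU : ∀ y, Up D x1 x2 y = 0 := fun y => by
      unfold Up
      rw [h, div_zero]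
    refine ⟨fun y _ _ _ _ => ?_, fun y _ _ => ?_, fun y _ => ?_, fun y _ => ?_⟩
    · rw [hU, abs_zero]
      norm_num
    · rw [hU, abs_zero]
      positivity
    · rw [hU]
      norm_num
    · rw [hU]
      norm_num
  by_cases hx1D : x1 ∈ D
  swap
  · refine htriv ?_
    rw [F.off x1 hx1D x1, F.off x1 hx1D x2]
    ring
  by_cases hx2D : x2 ∈ D
  swap
  · refine htriv ?_
    rw [F.off x2 hx2D x2, F.off' x1 x2 hx2D]
    ring
  have hcs := F.cs x1 hx1D x2 hx2D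
  rcases (sub_nonneg.mpr hcs).eq_or_lt with hdet | hdet
  · exact htriv hdet.symm
  have hx10 : x1 ∈ Arm 0 := win_arm (fun i => (hA.h1 i).trans (hA.h2 i))
    (fun i => (hA.h4 i).trans (hA.h5 i)) hL0 hx1
  have hx21 : x2 ∈ Arm 1 := win_arm (fun i => (hA.h1 i).trans (hA.h2 i))
    (fun i => (hA.h4 i).trans (hA.h5 i)) hL0 hx2
  have hx1L : L ^ (9 / 10 : ℝ) ≤ ‖x1‖ := win_norm hL (by norm_num) hx1
  have hx2L : L ^ (9 / 10 : ℝ) ≤ ‖x2‖ := win_norm hL (by norm_num) hx2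
  set η : ℝ := K * L ^ (-(1 / 20) : ℝ) with hη
  have hη0 : 0 ≤ η := by positivity
  have hηA : η ≤ A / 100 := by
    refine hK.trans ?_
    rw [div_le_div_iff₀ (by positivity) (by norm_num)]
    have := (hA1 0).trans (hB 0)
    nlinarith
  have hM1 : Gt D x1 x1 ≤ gs 0 + η := by
    have h1 := F.diag 0 x1 hx1D hx10 hx1L
    have h2 := hgs 0 (Complex.arg x1) ⟨hx10.2.1, hx10.2.2⟩
    linarith
  have hM2 : Gt D x2 x2 ≤ gs 1 + η := by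
    have h1 := F.diag 1 x2 hx2D hx21 hx2L
    have h2 := hgs 1 (Complex.arg x2) ⟨hx21.2.1, hx21.2.2⟩
    linarith
  have hM12 := F.cross x1 hx1D x2 hx2D hx10 hx21 (by linarith) (by linarith) (Or.inl hx1L)
  have hM120 := F.nonneg x1 hx1D x2 hx2D
  have hM10 := F.nonneg x1 hx1D x1 hx1D
  have hM20 := F.nonneg x2 hx2D x2 hx2D
  obtain ⟨hm1, hm2⟩ := alg hA0 (hA1 0) (hA1 1) (hB 0) (hB 1) hη0 hK hM10 hM20 hM120 hM12 hM1 hM2
    hdet hc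
  set m1 : ℝ := (Gt D x2 x2 + Gt D x1 x2) / (Gt D x1 x1 * Gt D x2 x2 - Gt D x1 x2 ^ 2) with hm1d
  set m2 : ℝ := (Gt D x1 x1 + Gt D x1 x2) / (Gt D x1 x1 * Gt D x2 x2 - Gt D x1 x2 ^ 2) with hm2d
  have hm10 : 0 ≤ m1 := div_nonneg (by linarith) hdet.le
  have hm20 : 0 ≤ m2 := div_nonneg (by linarith) hdet.le
  have hUp : ∀ y, Up D x1 x2 y = m1 * Gt D y x1 - m2 * Gt D y x2 := by
    intro y
    unfold Up
    rw [hm1d, hm2d, sub_div, mul_div_right_comm, mul_div_right_comm]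
  have hsm1 : ∀ v, v ≤ η → m1 * v ≤ 11 / 1000 := by
    intro v hv
    have h0 := hpos 0
    calc m1 * v ≤ m1 * (gs 0 / 100) :=
          mul_le_mul_of_nonneg_left (hv.trans (hηA.trans (by linarith [hA1 0]))) hm10
      _ ≤ 11 / 10 / gs 0 * (gs 0 / 100) := mul_le_mul_of_nonneg_right hm1 (by positivity)
      _ = 11 / 1000 := by
        field_simp
        norm_num
  have hsm2 : ∀ v, v ≤ η → m2 * v ≤ 11 / 1000 := by
    intro v hv
    have h0 := hpos 1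
    calc m2 * v ≤ m2 * (gs 1 / 100) :=
          mul_le_mul_of_nonneg_left (hv.trans (hηA.trans (by linarith [hA1 1]))) hm20
      _ ≤ 11 / 10 / gs 1 * (gs 1 / 100) := mul_le_mul_of_nonneg_right hm2 (by positivity)
      _ = 11 / 1000 := by
        field_simp
        norm_num
  have hG1 : ∀ y ∈ D, 0 ≤ m1 * Gt D y x1 := fun y hy => mul_nonneg hm10 (F.nonneg y hy x1 hx1D)
  have hG2 : ∀ y ∈ D, 0 ≤ m2 * Gt D y x2 := fun y hy => mul_nonneg hm20 (F.nonneg y hy x2 hx2D)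
  refine ⟨fun y hy hy4 hW0 hW1 => ?_, fun y hy hy4 => ?_, fun y hy => ?_, fun y hy => ?_⟩
  · obtain ⟨i, hi⟩ := F.cov y hy (by linarith)
    have hboth : m1 * Gt D y x1 ≤ 9 / 10 ∧ m2 * Gt D y x2 ≤ 9 / 10 := by
      have hi01 : i = 0 ∨ i = 1 := by
        fin_cases i
        · exact Or.inl rfl
        · exact Or.inr rfl
      rcases hi01 with rfl | rfl
      · constructor
        · exact same_arm F hL hL16 hA (hgs 0) (hpos 0) (hηA.trans (by linarith [hA1 0])) hx1D hy hx1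
            hi hy4 hW0 hm10 hm1
        · have h1 := F.cross y hy x2 hx2D hi hx21 hy4 (by linarith) (Or.inr hx2L)
          linarith [hsm2 _ h1]
      · constructor
        · have h1 := F.cross x1 hx1D y hy hx10 hi (by linarith) hy4 (Or.inl hx1L)
          rw [F.symm x1 hx1D y hy] at h1
          linarith [hsm1 _ h1]
        · exact same_arm F hL hL16 hA (hgs 1) (hpos 1) (hηA.trans (by linarith [hA1 1])) hx2D hy hx2
            hi hy4 hW1 hm20 hm2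
    rw [hUp, abs_le]
    have h1 := hG1 y hy
    have h2 := hG2 y hy
    constructor <;> linarith [hboth.1, hboth.2]
  · have h1 := F.core 0 y hy x1 hx1D hy4 hx10 hx1L
    have h2 := F.core 1 y hy x2 hx2D hy4 hx21 hx2L
    have h3 : 0 ≤ ‖y‖ ^ ((1 : ℝ) / 2) := by positivity
    have h4 : m1 * Gt D y x1 ≤ 11 / 1000 * ‖y‖ ^ ((1 : ℝ) / 2) := by
      calc m1 * Gt D y x1 ≤ m1 * (η * ‖y‖ ^ ((1 : ℝ) / 2)) := mul_le_mul_of_nonneg_left h1 hm10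
        _ = (m1 * η) * ‖y‖ ^ ((1 : ℝ) / 2) := by ring
        _ ≤ _ := mul_le_mul_of_nonneg_right (hsm1 _ le_rfl) h3
    have h5 : m2 * Gt D y x2 ≤ 11 / 1000 * ‖y‖ ^ ((1 : ℝ) / 2) := by
      calc m2 * Gt D y x2 ≤ m2 * (η * ‖y‖ ^ ((1 : ℝ) / 2)) := mul_le_mul_of_nonneg_left h2 hm20
        _ = (m2 * η) * ‖y‖ ^ ((1 : ℝ) / 2) := by ring
        _ ≤ _ := mul_le_mul_of_nonneg_right (hsm2 _ le_rfl) h3
    rw [hUp, abs_le]
    have h6 := hG1 y hy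
    have h7 := hG2 y hy
    constructor <;> linarith
  · rw [hUp]
    by_cases hyD : y ∈ D
    · have hy0 : y ∈ Arm 0 := win_arm hA.h1 hA.h5 hL0 hy
      have hyL : L ^ (9 / 10 : ℝ) ≤ ‖y‖ := win_norm hL le_rfl hy
      have h1 := F.cross y hyD x2 hx2D hy0 hx21 (by linarith) (by linarith) (Or.inr hx2L)
      have h2 := hG1 y hyD
      linarith [hsm2 _ h1]
    · rw [F.off y hyD, F.off y hyD]
      norm_num
  · rw [hUp]
    by_cases hyD : y ∈ D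
    · have hy1 : y ∈ Arm 1 := win_arm hA.h1 hA.h5 hL0 hy
      have hyL : L ^ (9 / 10 : ℝ) ≤ ‖y‖ := win_norm hL le_rfl hy
      have h1 := F.cross x1 hx1D y hyD hx10 hy1 (by linarith) (by linarith) (Or.inl hx1L)
      rw [F.symm x1 hx1D y hyD] at h1
      have h2 := hG2 y hyD
      linarith [hsm1 _ h1]
    · rw [F.off y hyD, F.off y hyD]
      norm_num

/-- **W3** -/
theorem st_W3 (hT2 : ST_T2) (hGF2 : ST_GF2) (hGEO : ST_GEO) (hS : ST_SEC0) (hS1 : ST_S1)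
    (hE1 : ST_E1) (hE4 : ST_E4) (hE5 : ST_E5) (hE6 : ST_E6) : ST_W3 := by
  obtain ⟨K, hK, hF⟩ := facts hT2 hGF2 hGEO hS hE1 hE4 hE5 hE6
  obtain ⟨-, hbdd, hpos, -, -⟩ := hS1
  intro a b a' b' hA
  have hgs : ∀ i, ∀ t ∈ Ioo (al i) (be i), gam i t ≤ gs i := fun i t ht =>
    le_csSup (hbdd i) ⟨t, ht, rfl⟩
  set A : ℝ := min (gs 0) (gs 1) with hAd
  set B : ℝ := max (gs 0) (gs 1) with hBd
  have hA0 : 0 < A := lt_min (hpos 0) (hpos 1)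
  have hA1 : ∀ i, A ≤ gs i := by
    intro i
    fin_cases i
    · exact min_le_left _ _
    · exact min_le_right _ _
  have hB : ∀ i, gs i ≤ B := by
    intro i
    fin_cases i
    · exact le_max_left _ _
    · exact le_max_right _ _
  have hBpos : 0 < B := (hpos 0).trans_le (hB 0)
  refine ⟨1 / (200 * B), by positivity, ?_⟩
  have e1 : ∀ᶠ L : ℝ in atTop, 16 ≤ L ^ (9 / 10 : ℝ) :=
    (tendsto_rpow_atTop (by norm_num)).eventually_ge_atTop 16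
  have e2 : ∀ᶠ L : ℝ in atTop, 16 ≤ L ^ (7 : ℝ) :=
    (tendsto_rpow_atTop (by norm_num)).eventually_ge_atTop 16
  have e3 : ∀ᶠ L : ℝ in atTop, 16 ≤ L ^ (2 : ℝ) :=
    (tendsto_rpow_atTop (by norm_num)).eventually_ge_atTop 16
  have e4 : ∀ᶠ L : ℝ in atTop, K * L ^ (-(1 / 20) : ℝ) ≤ A ^ 2 / (100 * B) := by
    have h1 : Tendsto (fun L : ℝ => K * L ^ (-(1 / 20) : ℝ)) atTop (𝓝 (K * 0)) :=
      (tendsto_rpow_neg_atTop (by norm_num)).const_mul K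
    rw [mul_zero] at h1
    exact h1.eventually_le_const (by positivity)
  filter_upwards [eventually_ge_atTop (1 : ℝ), e1, e2, e3, e4] with L hL hL1 hL2 hL3 hL4
  refine Eventually.of_forall fun n x1 hx1 x2 hx2 hc => ?_
  have hRL : ∀ i, 16 ≤ RL L i := by
    intro i
    fin_cases i
    · exact hL2
    · exact hL3
  have hRL1 : ∀ i, 1 ≤ RL L i := fun i => by linarith [hRL i]
  obtain ⟨-, hprof, hle, -, -, -, -, -⟩ := hGEO.2 (RL L) hRL1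
  exact core_step (hF L hL hL1 (RL L) (Rn (RL L) n) ⟨hRL, hprof n, fun t => hle n t⟩) hL hL1 hA
    hgs hpos hA0 hA1 hB hK hL4 hx1 hx2 hc

end LEP.W3
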