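import Pool.Agent.Helper14.LE.Stmts

/-!
# MP_08fe4e_an, module U: the arms of `D₀`
-/

open MeasureTheory Set Filter Topology InnerProductSpace

noncomputable section

namespace LEP.U

theorem th0_pos : 0 < th0 := by
  unfold th0
  positivity

theorem pi_eq : Real.pi = 54 * th0 := by
  unfold th0
  ring

theorem mm_pos (i : Fin 2) : (0 : ℝ) < mm i := by
  fin_cases i <;> simp [mm]

theorem mp_pos (i : Fin 2) : 0 < mp i := by
  fin_cases i <;> simp [mp, mm] <;> norm_num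

theorem mp_lt (i : Fin 2) : mp i < mm i := by
  unfold mp
  linarith

theorem mp_le (i : Fin 2) : mp i ≤ 9 := by
  fin_cases i <;> simp [mp, mm] <;> norm_num

theorem al_pos (i : Fin 2) : 0 < al i := by
  have := th0_pos
  fin_cases i <;> simp [al] <;> linarith

theorem be_lt (i : Fin 2) : be i < Real.pi / 2 := by
  have := th0_pos
  have h2 := pi_eq
  fin_cases i <;> simp [be, al, mm] <;> linarith

theorem al_lt_be (i : Fin 2) : al i < be i := by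
  have h := mm_pos i
  unfold be
  have : 0 < Real.pi / mm i := div_pos Real.pi_pos h
  linarith

theorem be0_le_al1 : be 0 ≤ al 1 := by
  have := th0_pos
  have h2 := pi_eq
  simp [be, al, mm]
  linarith

theorem arm_disj {i j : Fin 2} {z : ℂ} (h : z ∈ Arm i) (h' : z ∈ Arm j) : i = j := by
  have h0 := be0_le_al1
  obtain ⟨-, h1, h2⟩ := h
  obtain ⟨-, h3, h4⟩ := h'
  fin_cases i <;> fin_cases j
  · rfl
  · exfalso
    simp only [Fin.zero_eta, Fin.mk_one] at *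
    linarith
  · exfalso
    simp only [Fin.zero_eta, Fin.mk_one] at *
    linarith
  · rfl

theorem arm_slit {i : Fin 2} {z : ℂ} (h : z ∈ Arm i) : z ∈ Complex.slitPlane := by
  obtain ⟨h0, h1, h2⟩ := h
  rw [Complex.mem_slitPlane_iff_arg]
  refine ⟨?_, h0⟩
  have := be_lt i
  have := Real.pi_pos
  linarith

theorem isOpen_arm (i : Fin 2) : IsOpen (Arm i) := by
  rw [isOpen_iff_mem_nhds]
  intro z hz
  have h1 := Complex.continuousAt_arg (arm_slit hz)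
  obtain ⟨h2, h3, h4⟩ := hz
  filter_upwards [isOpen_ne.mem_nhds h2, h1.eventually (eventually_gt_nhds h3),
    h1.eventually (eventually_lt_nhds h4)] with w hw1 hw2 hw3
  exact ⟨hw1, hw2, hw3⟩

theorem isOpen_armR (i : Fin 2) (ρ : ℝ) : IsOpen (ArmR i ρ) :=
  (isOpen_arm i).inter (isOpen_lt continuous_norm continuous_const)

/-! ### the comparison function -/

/-- the middle angle -/
def mid (i : Fin 2) : ℝ := al i + Real.pi / (2 * mm i)

/-- the comparison function -/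
def Hc (i : Fin 2) (z : ℂ) : ℝ :=
  ‖z‖ ^ (-mp i) * Real.cos (mp i * (Complex.arg z - mid i))

/-- its lower bound -/
def c0 (i : Fin 2) : ℝ := Real.cos (mp i * (Real.pi / (2 * mm i)))

theorem c0_pos (i : Fin 2) : 0 < c0 i := by
  unfold c0
  have h1 := mm_pos i
  have h2 := mp_pos i
  have h3 := mp_lt i
  have h4 := Real.pi_pos
  apply Real.cos_pos_of_mem_Ioo
  constructor
  · have : 0 < mp i * (Real.pi / (2 * mm i)) := by positivity
    linarith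
  · rw [← mul_div_assoc, div_lt_div_iff₀ (by positivity) (by norm_num)]
    nlinarith

theorem Hc_bounds {i : Fin 2} {z : ℂ} (h : z ∈ Arm i) :
    c0 i * ‖z‖ ^ (-mp i) ≤ Hc i z ∧ Hc i z ≤ ‖z‖ ^ (-mp i) := by
  have h0 : 0 ≤ ‖z‖ ^ (-mp i) := Real.rpow_nonneg (norm_nonneg z) _
  have h1 := mm_pos i
  have h2 := mp_pos i
  have h3 := mp_lt i
  have h4 := Real.pi_pos
  obtain ⟨-, h5, h6⟩ := h
  constructor
  · unfold Hc
    rw [mul_comm]
    refine mul_le_mul_of_nonneg_left ?_ h0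
    unfold c0
    rw [← Real.cos_abs (mp i * (Complex.arg z - mid i))]
    refine Real.cos_le_cos_of_nonneg_of_le_pi (abs_nonneg _) ?_ ?_
    · have : mp i * (Real.pi / (2 * mm i)) ≤ Real.pi / 2 := by
        rw [← mul_div_assoc, div_le_div_iff₀ (by positivity) (by norm_num)]
        nlinarith
      linarith
    · rw [abs_mul, abs_of_pos h2]
      refine mul_le_mul_of_nonneg_left ?_ h2.le
      have h7 : be i = mid i + Real.pi / (2 * mm i) := by
        unfold be mid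
        field_simp
        ring
      have h8 : al i = mid i - Real.pi / (2 * mm i) := by
        unfold mid
        ring
      rw [abs_le]
      constructor <;> linarith
  · unfold Hc
    exact mul_le_of_le_one_right h0 (Real.cos_le_one _)

theorem Hc_harmonic {i : Fin 2} {z : ℂ} (h : z ∈ Arm i) : HarmonicAt (Hc i) z := by
  have hsl := arm_slit h
  have h1 : AnalyticAt ℂ (fun w : ℂ =>
      Complex.exp (-(mp i : ℂ) * (Complex.log w - (mid i : ℂ) * Complex.I))) z := by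
    have : AnalyticAt ℂ Complex.log z := analyticAt_clog hsl
    fun_prop
  have h2 := h1.harmonicAt_re
  refine (harmonicAt_congr_nhds ?_).mp h2
  filter_upwards [isOpen_ne.mem_nhds h.1] with w hw
  rw [Complex.exp_re]
  have hre : (-(mp i : ℂ) * (Complex.log w - (mid i : ℂ) * Complex.I)).re =
      Real.log ‖w‖ * (-mp i) := by
    simp [Complex.mul_re, Complex.log_re]
    ring
  have him : (-(mp i : ℂ) * (Complex.log w - (mid i : ℂ) * Complex.I)).im =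
      -(mp i * (Complex.arg w - mid i)) := by
    simp [Complex.mul_im, Complex.log_im]
  rw [hre, him, Real.cos_neg, ← Real.rpow_def_of_pos (norm_pos_iff.mpr hw)]
  rfl

/-! ### comparison -/

/-- the part of the arm outside of the ball of radius `ρ` -/
def VV (Rv : Fin 2 → ℝ) (i : Fin 2) (ρ : ℝ) : Set ℂ := {z | z ∈ ArmR i (Rv i) ∧ ρ < ‖z‖}

theorem isOpen_VV (Rv : Fin 2 → ℝ) (i : Fin 2) (ρ : ℝ) : IsOpen (VV Rv i ρ) :=
  (isOpen_armR i (Rv i)).inter (isOpen_lt continuous_const continuous_norm)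

theorem comp (hMPB : ST_MPB) (hGEO : ST_GEO) : ∃ C₁ : ℝ, 0 < C₁ ∧ ∀ Rv : Fin 2 → ℝ,
    (∀ i, 16 ≤ Rv i) → ∀ (i : Fin 2) (ρ : ℝ), 2 ≤ ρ → ρ ≤ 8 → ∀ M : ℝ, 0 ≤ M → ∀ f : ℂ → ℝ,
    HarmonicOnNhd f (VV Rv i ρ) → (∀ z ∈ VV Rv i ρ, ‖z‖ < ρ + 1 / 2 → f z ≤ M) →
    (∀ ξ, ξ ∉ Ddom (R0 Rv) → ∀ ε : ℝ, 0 < ε → ∀ᶠ z in 𝓝[VV Rv i ρ] ξ, f z < ε) →
    ∀ z ∈ VV Rv i ρ, f z ≤ C₁ * M * ‖z‖ ^ (-mp i) := by
  refine ⟨9 ^ (9 : ℝ) / c0 0 + 9 ^ (9 : ℝ) / c0 1, ?_, ?_⟩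
  · have h0 := c0_pos 0
    have h1 := c0_pos 1
    positivity
  intro Rv hRv i ρ hρ hρ8 M hM f hf hnear hbd z hz
  have hc := c0_pos i
  have hRv1 : ∀ i, 1 ≤ Rv i := fun i => by linarith [hRv i]
  obtain ⟨-, -, -, -, -, -, hcov, -⟩ := hGEO.2 Rv hRv1
  set a : ℝ := M / c0 i * (ρ + 1 / 2) ^ (mp i) with ha
  have ha0 : 0 ≤ a := by positivity
  have hmem : ∀ w ∈ VV Rv i ρ, w ∈ Arm i := fun w hw => hw.1.1
  -- the comparison
  have hF : HarmonicOnNhd (f - a • Hc i) (VV Rv i ρ) := by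
    intro w hw
    exact (hf w hw).sub ((Hc_harmonic (hmem w hw)).const_smul)
  have hHnn : ∀ w ∈ VV Rv i ρ, 0 ≤ a * Hc i w := by
    intro w hw
    have h1 := (Hc_bounds (hmem w hw)).1
    have h2 : 0 ≤ c0 i * ‖w‖ ^ (-mp i) := by positivity
    exact mul_nonneg ha0 (h2.trans h1)
  have hbdd : Bornology.IsBounded (VV Rv i ρ) := by
    refine (Metric.isBounded_ball (x := (0 : ℂ)) (r := Rv i)).subset fun w hw => ?_
    rw [mem_ball_zero_iff]
    exact hw.1.2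
  have key := hMPB (VV Rv i ρ) (f - a • Hc i) (isOpen_VV Rv i ρ) hbdd hF ?_ z hz
  · have h1 : f z ≤ a * Hc i z := by
      have : f z - a * Hc i z ≤ 0 := key
      linarith
    have h2 := (Hc_bounds (hmem z hz)).2
    have h3 : 0 ≤ ‖z‖ ^ (-mp i) := by positivity
    have h4 : a ≤ (9 ^ (9 : ℝ) / c0 0 + 9 ^ (9 : ℝ) / c0 1) * M := by
      have h5 : (ρ + 1 / 2) ^ (mp i) ≤ (9 : ℝ) ^ (9 : ℝ) :=
        (Real.rpow_le_rpow (by linarith) (by linarith) (mp_pos i).le).trans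
          (Real.rpow_le_rpow_of_exponent_le (by norm_num) (mp_le i))
      have h6 : 9 ^ (9 : ℝ) / c0 i ≤ 9 ^ (9 : ℝ) / c0 0 + 9 ^ (9 : ℝ) / c0 1 := by
        have h7 := c0_pos 0
        have h8 := c0_pos 1
        have h9 : 0 < (9 : ℝ) ^ (9 : ℝ) / c0 0 := by positivity
        have h10 : 0 < (9 : ℝ) ^ (9 : ℝ) / c0 1 := by positivity
        fin_cases i
        · simp only [Fin.zero_eta]
          linarith
        · simp only [Fin.mk_one]
          linarith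
      calc a ≤ M / c0 i * 9 ^ (9 : ℝ) := mul_le_mul_of_nonneg_left h5 (by positivity)
        _ = 9 ^ (9 : ℝ) / c0 i * M := by ring
        _ ≤ _ := mul_le_mul_of_nonneg_right h6 hM
    calc f z ≤ a * Hc i z := h1
      _ ≤ a * ‖z‖ ^ (-mp i) := mul_le_mul_of_nonneg_left h2 ha0
      _ ≤ _ := mul_le_mul_of_nonneg_right h4 h3
  · intro ξ hξ ε hε
    rw [(isOpen_VV Rv i ρ).frontier_eq] at hξ
    by_cases hξρ : ‖ξ‖ ≤ ρ
    · have h1 : ∀ᶠ w in 𝓝[VV Rv i ρ] ξ, ‖w‖ < ρ + 1 / 2 := by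
        refine nhdsWithin_le_nhds ?_
        exact (continuous_norm.tendsto ξ).eventually (eventually_lt_nhds (by linarith))
      filter_upwards [h1, self_mem_nhdsWithin] with w hw1 hw2
      have h2 := hnear w hw2 hw1
      have h3 := (Hc_bounds (hmem w hw2)).1
      have hw0 : 0 < ‖w‖ := by linarith [hw2.2]
      have h4 : M ≤ a * Hc i w := by
        have h5 : 1 ≤ (ρ + 1 / 2) ^ (mp i) * ‖w‖ ^ (-mp i) := by
          rw [Real.rpow_neg hw0.le, ← div_eq_mul_inv, one_le_div (by positivity)]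
          exact Real.rpow_le_rpow hw0.le hw1.le (mp_pos i).le
        calc M = M * 1 := (mul_one M).symm
          _ ≤ M * ((ρ + 1 / 2) ^ (mp i) * ‖w‖ ^ (-mp i)) := mul_le_mul_of_nonneg_left h5 hM
          _ = a * (c0 i * ‖w‖ ^ (-mp i)) := by
            rw [ha]
            field_simp
          _ ≤ a * Hc i w := mul_le_mul_of_nonneg_left h3 ha0
      show f w - a * Hc i w < ε
      linarith
    · push Not at hξρ
      have hξD : ξ ∉ Ddom (R0 Rv) := by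
        intro hD
        obtain ⟨j, hj⟩ := hcov ξ hD (by linarith)
        have hji : j ≠ i := by
          rintro rfl
          exact hξ.2 ⟨hj, hξρ⟩
        obtain ⟨w, hw1, hw2⟩ := mem_closure_iff.mp hξ.1 _ (isOpen_armR j (Rv j)) hj
        exact hji (arm_disj hw1.1 hw2.1.1)
      filter_upwards [hbd ξ hξD ε hε, self_mem_nhdsWithin] with w hw1 hw2
      have h2 := hHnn w hw2
      show f w - a * Hc i w < ε
      linarith

/-! ### Green functions -/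

theorem green_harmonic {D : Set ℂ} {g : ℂ → ℂ → ℝ} (hD : IsOpen D) (hg : IsGreen D g) {y : ℂ}
    (hy : y ∈ D) {V : Set ℂ} (hV : V ⊆ D) (hyV : y ∉ V) : HarmonicOnNhd (fun x => g x y) V := by
  obtain ⟨h, -, h2, h3⟩ := hg.reg
  intro x hx
  have hxy : x ≠ y := fun h => hyV (h ▸ hx)
  have h4 : HarmonicAt (fun x => Real.log ‖x - y‖) x := by
    have : AnalyticAt ℂ (fun x : ℂ => x - y) x := by fun_prop
    exact this.harmonicAt_log_norm (sub_ne_zero.mpr hxy)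
  have h5 : HarmonicAt ((fun x => h x y) - (1 / (2 * Real.pi)) • fun x => Real.log ‖x - y‖) x :=
    (h2 y hy x (hV hx)).sub h4.const_smul
  refine (harmonicAt_congr_nhds ?_).mp h5
  filter_upwards [hD.mem_nhds (hV hx), isOpen_ne.mem_nhds hxy] with w hw1 hw2
  exact (h3 w hw1 y hy hw2).symm

theorem green_tend {D : Set ℂ} {g : ℂ → ℂ → ℝ} (hg : IsGreen D g) {y : ℂ} (hy : y ∈ D) {ξ : ℂ}
    (hξ : ξ ∉ D) {ε : ℝ} (hε : 0 < ε) : ∀ᶠ z in 𝓝 ξ, g z y < ε := by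
  obtain ⟨K', hK1, hK2, hK3⟩ := hg.bdry {y} (by simpa using hy) isCompact_singleton ε hε
  have h1 : ξ ∈ K'ᶜ := fun h => hξ (hK1 h)
  filter_upwards [hK2.isClosed.isOpen_compl.mem_nhds h1] with z hz
  by_cases hzD : z ∈ D
  · exact hK3 y rfl z ⟨hzD, hz⟩
  · rw [hg.off z y (Or.inl hzD)]
    exact hε

theorem bb_le {j : Fin 2} {y : ℂ} (h : y ∈ Arm j) (h1 : 1 ≤ ‖y‖) : ‖y‖ ^ (-mp j) ≤ bb y := by
  unfold bb
  split_ifs with h2 h3 h4
  · exact Real.rpow_le_one_of_one_le_of_nonpos h1 (by linarith [mp_pos j])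
  · rw [arm_disj h h3]
  · rw [arm_disj h h4]
  · exfalso
    fin_cases j
    · exact h3 h
    · exact h4 h

theorem bb_nonneg (y : ℂ) : 0 ≤ bb y := by
  unfold bb
  split_ifs
  · exact zero_le_one
  · positivity
  · positivity
  · exact zero_le_one

theorem bb_one {y : ℂ} (h : ‖y‖ < 8) : bb y = 1 := by
  unfold bb
  rw [if_pos h]

/-! ### the facts on `D₀` -/

section facts

variable {Rv : Fin 2 → ℝ}

theorem green_le_three (hGQ : ST_GQ1) (hS : ST_SEC0) {D : Set ℂ} (hD : IsOpen D) (hDQ : D ⊆ Qd)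
    {g : ℂ → ℂ → ℝ} (hg : IsGreen D g) {i : Fin 2} {x y : ℂ} (hx : x ∈ D) (hxi : x ∈ Arm i)
    (hx3 : ‖x‖ < 3 + 1 / 2) (hy : y ∈ D) (hxy : 1 / 2 ≤ ‖x - y‖) : g x y ≤ 3 := by
  have hne : x ≠ y := by
    rintro rfl
    rw [sub_self, norm_zero] at hxy
    norm_num at hxy
  have h1 := hGQ.2.2.2.2 D g hD hDQ hg x hx y hy
  have h2 := hGQ.2.2.1 x (hDQ hx) y (hDQ hy) hne
  have h3 := (hS.1 i x hxi).2.2
  have hpi := Real.pi_gt_three
  have h4 : psi x / ‖x - y‖ ≤ 7 / 2 := by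
    rw [div_le_iff₀ (by linarith)]
    nlinarith
  have h5 : 2 / Real.pi * (psi x / ‖x - y‖) ≤ 2 / Real.pi * (7 / 2) :=
    mul_le_mul_of_nonneg_left h4 (by positivity)
  have h6 : 2 / Real.pi * (7 / 2) ≤ 3 := by
    rw [div_mul_eq_mul_div, div_le_iff₀ (by linarith)]
    linarith
  linarith

theorem mem_armR (hGEO : ST_GEO) (hRv : ∀ i, 16 ≤ Rv i) {x : ℂ} (hx : x ∈ Ddom (R0 Rv))
    {i : Fin 2} (hxi : x ∈ Arm i) (h1 : 1 ≤ ‖x‖) : x ∈ ArmR i (Rv i) := by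
  have hRv1 : ∀ i, 1 ≤ Rv i := fun i => by linarith [hRv i]
  obtain ⟨-, -, -, -, -, -, hcov, -⟩ := hGEO.2 Rv hRv1
  obtain ⟨j, hj⟩ := hcov x hx h1
  have := arm_disj hxi hj.1
  subst this
  exact hj

end facts

/-- **U1** -/
theorem st_U1 (hMPB : ST_MPB) (hGF2 : ST_GF2) (hGEO : ST_GEO) (hGQ : ST_GQ1) (hS : ST_SEC0) :
    ST_U1 := by
  obtain ⟨C₁, hC₁, hcomp⟩ := comp hMPB hGEO
  refine ⟨C₁ * (3 * C₁ + 3), by positivity, fun Rv hRv i x hx y hy hxi hx4 hyi => ?_⟩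
  have hRv1 : ∀ i, 1 ≤ Rv i := fun i => by linarith [hRv i]
  obtain ⟨hprof, -, -, -, -, hsub, hcov, -⟩ := hGEO.2 Rv hRv1
  obtain ⟨-, hDo, -⟩ := hGEO.1 _ hprof
  have hDQ : Ddom (R0 Rv) ⊆ Qd := fun z hz => hz.2
  have hG := hGF2 _ hprof
  have hVD : ∀ j ρ, VV Rv j ρ ⊆ Ddom (R0 Rv) := fun j ρ z hz => hsub j hz.1
  have hxR := mem_armR hGEO hRv hx hxi (by linarith)
  -- near `|x| = 3`
  have hnear : ∀ z ∈ VV Rv i 3, ‖z‖ < 3 + 1 / 2 → gD (Ddom (R0 Rv)) z y ≤ (3 * C₁ + 3) * bb y := by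
    intro z hz hz3
    have hzD := hVD i 3 hz
    by_cases hy2 : ‖y‖ ≤ 2
    · have h1 : 1 / 2 ≤ ‖z - y‖ := by
        have := norm_sub_norm_le z y
        linarith [hz.2]
      have h2 := green_le_three hGQ hS hDo hDQ hG hzD hz.1.1 hz3 hy h1
      rw [bb_one (by linarith)]
      linarith
    · push Not at hy2
      obtain ⟨j, hj⟩ := hcov y hy (by linarith)
      have hij : i ≠ j := by
        rintro rfl
        rcases hyi with h | h
        · exact h hj.1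
        · linarith
      have h1 := hcomp Rv hRv j 2 le_rfl (by norm_num) 3 (by norm_num)
        (fun w => gD (Ddom (R0 Rv)) w z)
        (green_harmonic hDo hG hzD (hVD j 2) fun h => hij (arm_disj hz.1.1 h.1.1))
        (fun w hw hw2 => by
          show gD (Ddom (R0 Rv)) w z ≤ 3
          rw [hG.symm w (hVD j 2 hw) z hzD]
          refine green_le_three hGQ hS hDo hDQ hG hzD hz.1.1 hz3 (hVD j 2 hw) ?_
          have := norm_sub_norm_le z w
          linarith [hz.2])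
        (fun ξ hξ ε hε => nhdsWithin_le_nhds (green_tend hG hzD hξ hε)) y ⟨hj, hy2⟩
      have h1' : gD (Ddom (R0 Rv)) y z ≤ C₁ * 3 * ‖y‖ ^ (-mp j) := h1
      have h2 := bb_le hj.1 (by linarith)
      have h3 := bb_nonneg y
      rw [hG.symm z hzD y hy]
      have h4 : C₁ * 3 * ‖y‖ ^ (-mp j) ≤ C₁ * 3 * bb y :=
        mul_le_mul_of_nonneg_left h2 (by positivity)
      nlinarith
  have hyV : y ∉ VV Rv i 3 := by
    intro h
    rcases hyi with h1 | h1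
    · exact h1 h.1.1
    · linarith [h.2]
  have h1 := hcomp Rv hRv i 3 (by norm_num) (by norm_num) ((3 * C₁ + 3) * bb y)
    (mul_nonneg (by positivity) (bb_nonneg y)) (fun w => gD (Ddom (R0 Rv)) w y)
    (green_harmonic hDo hG hy (hVD i 3) hyV) hnear
    (fun ξ hξ ε hε => nhdsWithin_le_nhds (green_tend hG hy hξ hε)) x ⟨hxR, by linarith⟩
  have h2 : gD (Ddom (R0 Rv)) x y ≤ C₁ * ((3 * C₁ + 3) * bb y) * ‖x‖ ^ (-mp i) := h1
  calc _ ≤ _ := h2
    _ = _ := by ring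

/-- **U3** -/
theorem st_U3 (hMPB : ST_MPB) (hGF2 : ST_GF2) (hGEO : ST_GEO) (hGQ : ST_GQ1) : ST_U3 := by
  obtain ⟨C₁, hC₁, hcomp⟩ := comp hMPB hGEO
  refine ⟨C₁ + 8 ^ (9 : ℝ), by positivity, fun Rv hRv j y hy z hz hy4 hzj hz8 => ?_⟩
  have hRv1 : ∀ i, 1 ≤ Rv i := fun i => by linarith [hRv i]
  obtain ⟨hprof, -, -, -, -, hsub, hcov, -⟩ := hGEO.2 Rv hRv1
  obtain ⟨-, hDo, -⟩ := hGEO.1 _ hprof
  have hDQ : Ddom (R0 Rv) ⊆ Qd := fun z hz => hz.2
  have hG := hGF2 _ hprof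
  have hVD : ∀ j ρ, VV Rv j ρ ⊆ Ddom (R0 Rv) := fun j ρ z hz => hsub j hz.1
  have hzR := mem_armR hGEO hRv hz hzj (by linarith)
  have hpsi : 0 ≤ psi y := by
    unfold psi
    have h1 := (hDQ hy).1
    have h2 := (hDQ hy).2
    positivity
  have hM : 0 ≤ ‖y‖ * psi y := by positivity
  have hbound : ∀ w ∈ Ddom (R0 Rv), 8 ≤ ‖w‖ → gD (Ddom (R0 Rv)) w y ≤ ‖y‖ * psi y / 32 := by
    intro w hw hw8
    rw [hG.symm w hw y hy]
    have h1 := hGQ.2.2.2.2 _ _ hDo hDQ hG y hy w hw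
    have h2 := hGQ.2.2.2.1 y (hDQ hy) w (hDQ hw) (by linarith)
    have h3 : 2 * ‖y‖ * psi y / ‖w‖ ^ 2 ≤ ‖y‖ * psi y / 32 := by
      rw [div_le_div_iff₀ (by positivity) (by norm_num)]
      have h64 : (64 : ℝ) ≤ ‖w‖ ^ 2 := by nlinarith
      linarith [mul_le_mul_of_nonneg_left h64 hM]
    linarith
  have h0 : 0 ≤ ‖z‖ ^ (-mp j) := by positivity
  rw [hG.symm y hy z hz]
  rcases hz8.eq_or_lt with h8 | h8
  · have h1 := hbound z hz hz8
    have h2 : 1 ≤ 8 ^ (9 : ℝ) * ‖z‖ ^ (-mp j) := by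
      rw [← h8, ← Real.rpow_add (by norm_num)]
      exact Real.one_le_rpow (by norm_num) (by linarith [mp_le j])
    have h3 : ‖y‖ * psi y / 32 ≤ ‖y‖ * psi y * (8 ^ (9 : ℝ) * ‖z‖ ^ (-mp j)) := by nlinarith
    have h4 : 0 ≤ C₁ * ‖y‖ * psi y * ‖z‖ ^ (-mp j) := by positivity
    calc gD (Ddom (R0 Rv)) z y ≤ ‖y‖ * psi y / 32 := h1
      _ ≤ ‖y‖ * psi y * (8 ^ (9 : ℝ) * ‖z‖ ^ (-mp j)) := h3
      _ ≤ ‖y‖ * psi y * (8 ^ (9 : ℝ) * ‖z‖ ^ (-mp j)) + C₁ * ‖y‖ * psi y * ‖z‖ ^ (-mp j) := by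
        linarith
      _ = _ := by ring
  · have hyV : y ∉ VV Rv j 8 := fun h => by linarith [h.2]
    have h1 := hcomp Rv hRv j 8 (by norm_num) le_rfl (‖y‖ * psi y) hM
      (fun w => gD (Ddom (R0 Rv)) w y) (green_harmonic hDo hG hy (hVD j 8) hyV)
      (fun w hw _ => by
        show gD (Ddom (R0 Rv)) w y ≤ ‖y‖ * psi y
        have := hbound w (hVD j 8 hw) hw.2.le
        linarith)
      (fun ξ hξ ε hε => nhdsWithin_le_nhds (green_tend hG hy hξ hε)) z ⟨hzR, h8⟩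
    have h2 : gD (Ddom (R0 Rv)) z y ≤ C₁ * (‖y‖ * psi y) * ‖z‖ ^ (-mp j) := h1
    have h4 : 0 ≤ 8 ^ (9 : ℝ) * (‖y‖ * psi y) * ‖z‖ ^ (-mp j) := by positivity
    calc gD (Ddom (R0 Rv)) z y ≤ C₁ * (‖y‖ * psi y) * ‖z‖ ^ (-mp j) := h2
      _ ≤ C₁ * (‖y‖ * psi y) * ‖z‖ ^ (-mp j) + 8 ^ (9 : ℝ) * (‖y‖ * psi y) * ‖z‖ ^ (-mp j) := by
        linarith
      _ = _ := by ring

/-- **U2** -/
theorem st_U2 (hMPB : ST_MPB) (hMONO : ST_MONO) (hGF2 : ST_GF2) (hGEO : ST_GEO) (hGQ : ST_GQ1)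
    (hS : ST_SEC0) (hSG : ST_SECG) : ST_U2 := by
  classical
  obtain ⟨C₁, hC₁, hcomp⟩ := comp hMPB hGEO
  refine ⟨C₁ * (3 * C₁ + 3), by positivity, fun Rv hRv i x hx y hy hxy => ?_⟩
  have hRv1 : ∀ i, 1 ≤ Rv i := fun i => by linarith [hRv i]
  obtain ⟨hprof, -, -, -, -, hsub, hcov, -⟩ := hGEO.2 Rv hRv1
  obtain ⟨-, hDo, -⟩ := hGEO.1 _ hprof
  have hDQ : Ddom (R0 Rv) ⊆ Qd := fun z hz => hz.2
  have hG := hGF2 _ hprof
  have hA := hSG i (Rv i) (by linarith [hRv i])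
  have hle : ∀ z ∈ ArmR i (Rv i), ∀ w ∈ ArmR i (Rv i), z ≠ w →
      0 ≤ GAR i (Rv i) z w ∧ GAR i (Rv i) z w ≤ gD (Ddom (R0 Rv)) z w := by
    intro z hz w hw hzw
    have h1 := hMONO _ _ _ _ (isOpen_armR i (Rv i)) hDo (hsub i) hA hG z w
    have h2 := hA.nonneg z w
    simp only [hz, hw, ne_eq, hzw, not_false_eq_true, and_self, if_true] at h1 h2
    exact ⟨h2, h1⟩
  refine ⟨(hle x hx y hy hxy).2, fun hx4 => ?_⟩
  obtain ⟨h, hh1, hh2, hh3⟩ := hG.reg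
  obtain ⟨h', hh1', hh2', hh3'⟩ := hA.reg
  -- the difference
  set F : ℂ → ℂ → ℝ := fun z w => h z w - h' z w with hF
  have hFeq : ∀ z ∈ ArmR i (Rv i), ∀ w ∈ ArmR i (Rv i), z ≠ w →
      F z w = gD (Ddom (R0 Rv)) z w - GAR i (Rv i) z w := by
    intro z hz w hw hzw
    have h1 := hh3 z (hsub i hz) w (hsub i hw) hzw
    have h2 := hh3' z hz w hw hzw
    simp only [hz, hw, ne_eq, hzw, not_false_eq_true, and_self, if_true] at h2
    rw [h1, h2]
    show h z w - h' z w = _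
    ring
  have hFsymm : ∀ z ∈ ArmR i (Rv i), ∀ w ∈ ArmR i (Rv i), F z w = F w z := by
    intro z hz w hw
    by_cases hzw : z = w
    · rw [hzw]
    · have h1 := hG.symm z (hsub i hz) w (hsub i hw)
      have h2 := hA.symm z hz w hw
      simp only [hz, hw, ne_eq, hzw, Ne.symm hzw, not_false_eq_true, and_self, if_true] at h2
      rw [hFeq z hz w hw hzw, hFeq w hw z hz (Ne.symm hzw), h1, h2]
  have hFle : ∀ z ∈ ArmR i (Rv i), ∀ w ∈ ArmR i (Rv i), z ≠ w →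
      F z w ≤ gD (Ddom (R0 Rv)) z w := by
    intro z hz w hw hzw
    rw [hFeq z hz w hw hzw]
    linarith [(hle z hz w hw hzw).1]
  have hFharm : ∀ w ∈ ArmR i (Rv i), ∀ ρ, HarmonicOnNhd (fun z => F z w) (VV Rv i ρ) := by
    intro w hw ρ z hz
    exact (hh2 w (hsub i hw) z (hsub i hz.1)).sub (hh2' w hw z hz.1)
  have hFbd : ∀ w ∈ ArmR i (Rv i), ∀ ρ, ∀ ξ, ξ ∉ Ddom (R0 Rv) → ∀ ε : ℝ, 0 < ε →
      ∀ᶠ z in 𝓝[VV Rv i ρ] ξ, F z w < ε := by
    intro w hw ρ ξ hξ ε hε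
    have h1 : ξ ≠ w := fun h => hξ (h ▸ hsub i hw)
    filter_upwards [nhdsWithin_le_nhds (green_tend hG (hsub i hw) hξ hε),
      nhdsWithin_le_nhds (isOpen_ne.mem_nhds h1), self_mem_nhdsWithin] with z hz1 hz2 hz3
    exact (hFle z hz3.1 w hw hz2).trans_lt hz1
  have hVD : ∀ j ρ, VV Rv j ρ ⊆ Ddom (R0 Rv) := fun j ρ z hz => hsub j hz.1
  -- step 1
  have hstep : ∀ z ∈ VV Rv i 3, ‖z‖ < 3 + 1 / 2 → ∀ w ∈ VV Rv i 2,
      F w z ≤ C₁ * 3 * ‖w‖ ^ (-mp i) := by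
    intro z hz hz3 w hw
    refine hcomp Rv hRv i 2 le_rfl (by norm_num) 3 (by norm_num) (fun w => F w z)
      (hFharm z hz.1 2) (fun u hu hu2 => ?_) (hFbd z hz.1 2) w hw
    have hzu : 1 / 2 ≤ ‖z - u‖ := by
      have := norm_sub_norm_le z u
      linarith [hz.2]
    have hne : u ≠ z := by
      rintro rfl
      linarith [hz.2]
    refine (hFle u hu.1 z hz.1 hne).trans ?_
    rw [hG.symm u (hsub i hu.1) z (hsub i hz.1)]
    exact green_le_three hGQ hS hDo hDQ hG (hsub i hz.1) hz.1.1 hz3 (hsub i hu.1) hzu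
  -- step 2
  have h1 := hcomp Rv hRv i 3 (by norm_num) (by norm_num) ((3 * C₁ + 3) * bb y)
    (mul_nonneg (by positivity) (bb_nonneg y)) (fun z => F z y) (hFharm y hy 3)
    (fun z hz hz3 => by
      show F z y ≤ _
      by_cases hy2 : 2 < ‖y‖
      · rw [hFsymm z hz.1 y hy]
        have h2 := hstep z hz hz3 y ⟨hy, hy2⟩
        have h3 := bb_le hy.1 (by linarith)
        have h4 := bb_nonneg y
        have h5 : C₁ * 3 * ‖y‖ ^ (-mp i) ≤ C₁ * 3 * bb y :=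
          mul_le_mul_of_nonneg_left h3 (by positivity)
        nlinarith
      · push Not at hy2
        have hzu : 1 / 2 ≤ ‖z - y‖ := by
          have := norm_sub_norm_le z y
          linarith [hz.2]
        have hne : z ≠ y := by
          rintro rfl
          linarith [hz.2]
        have h2 := green_le_three hGQ hS hDo hDQ hG (hsub i hz.1) hz.1.1 hz3 (hsub i hy) hzu
        have h3 := hFle z hz.1 y hy hne
        rw [bb_one (by linarith)]
        linarith)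
    (hFbd y hy 3) x ⟨hx, by linarith⟩
  have h2 : F x y ≤ C₁ * ((3 * C₁ + 3) * bb y) * ‖x‖ ^ (-mp i) := h1
  rw [hFeq x hx y hy hxy] at h2
  have h3 : C₁ * ((3 * C₁ + 3) * bb y) * ‖x‖ ^ (-mp i) =
      C₁ * (3 * C₁ + 3) * ‖x‖ ^ (-mp i) * bb y := by ring
  linarith

end LEP.U
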